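import Pool.Agent.X243.EqTest.Proto

/-! Codes of matrices with a fixed Gram matrix. -/

open Finset

namespace Pool.Agent.X243.EqTest

set_option linter.unusedSectionVars false

variable {V : Type*} [Fintype V] [DecidableEq V] {G : SimpleGraph V} {E D : ℕ}

lemma exists_bits {α : Type*} (T : Finset α) (l : ℕ) (h : T.card ≤ 2 ^ l) :
    ∃ f : α → List Bool, (∀ a, (f a).length = l) ∧ Set.InjOn f T := by
  classical
  have h1 : Fintype.card T ≤ Fintype.card (Fin l → Bool) := by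
    simpa using h
  obtain ⟨φ⟩ := Function.Embedding.nonempty_of_card_le h1
  refine ⟨fun a => if h : a ∈ T then List.ofFn (φ ⟨a, h⟩) else List.replicate l false, ?_, ?_⟩
  · intro a
    beta_reduce
    split_ifs <;> simp
  · intro a ha b hb hab
    simp only at hab
    rw [dif_pos (mem_coe.1 ha), dif_pos (mem_coe.1 hb)] at hab
    have h2 := List.ofFn_injective hab
    have h3 := φ.injective h2
    exact congrArg Subtype.val h3

/-- matrices with entries in `{0, …, R - 1}` and the same Gram matrix -/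
lemma exists_code (D m R n : ℕ) (hRm : 2 ^ n * (m * R ^ 2 + 1) ^ (D * D) ≤ R ^ (D * m)) :
    ∃ (W : (Fin n → Bool) → Fin D → Fin m → ℤ) (Γ : Fin D → Fin D → ℤ),
      Function.Injective W ∧ (∀ a i j, ∑ k, W a i k * W a j k = Γ i j) ∧
      ∀ a i k, 0 ≤ W a i k ∧ W a i k < R := by
  classical
  let gram : (Fin D → Fin m → Fin R) → (Fin D → Fin D → Fin (m * R ^ 2 + 1)) := fun A i j =>
    ⟨∑ k, (A i k : ℕ) * (A j k : ℕ), by
      have h1 : ∑ k, (A i k : ℕ) * (A j k : ℕ) ≤ ∑ _k : Fin m, R ^ 2 := by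
        apply sum_le_sum
        intro k _
        rw [sq]
        exact Nat.mul_le_mul (A i k).2.le (A j k).2.le
      simp only [sum_const, card_univ, Fintype.card_fin, smul_eq_mul] at h1
      omega⟩
  obtain ⟨γ, hγ⟩ := Fintype.exists_le_card_fiber_of_mul_le_card gram (n := 2 ^ n) (by
    simp only [Fintype.card_pi, Fintype.card_fin, prod_const, card_univ]
    rw [← pow_mul, ← pow_mul, mul_comm]
    refine hRm.trans (le_of_eq ?_)
    rw [mul_comm D m])
  have h1 : Fintype.card (Fin n → Bool) ≤ Fintype.card {A // gram A = γ} := by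
    rw [Fintype.card_subtype]
    simpa using hγ
  obtain ⟨φ⟩ := Function.Embedding.nonempty_of_card_le h1
  refine ⟨fun a i k => ((φ a).1 i k : ℕ), fun i j => (γ i j : ℕ), ?_, ?_, ?_⟩
  · intro a b hab
    apply φ.injective
    apply Subtype.ext
    funext i k
    have h2 := congrFun (congrFun hab i) k
    simp only at h2
    exact Fin.ext (by exact_mod_cast h2)
  · intro a i j
    have h2 := (φ a).2
    have h3 := congrFun (congrFun h2 i) j
    have h4 := congrArg Fin.val h3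
    simp only [gram] at h4
    beta_reduce
    exact_mod_cast h4
  · intro a i k
    beta_reduce
    refine ⟨by positivity, ?_⟩
    exact_mod_cast ((φ a).1 i k).2

/-- the rigidity property of a family of linear messages -/
def Rigid (src tgt : Fin E → V) (ℓ : Fin E → Fin D → ℤ) : Prop :=
  ∀ (m : ℕ) (W : V → Fin D → Fin m → ℤ) (Γ : Fin D → Fin D → ℤ),
    (∀ v i j, ∑ k, W v i k * W v j k = Γ i j) →
    (∀ e k, ∑ i, ℓ e i * W (src e) i k = ∑ i, ℓ e i * W (tgt e) i k) → ∀ u v, W u = W v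

lemma add_le_two_pow (ρ D : ℕ) : ρ + (64 * D ^ 2 + 2) ≤ 2 ^ (ρ + (2 * D + 7)) := by
  have h1 : ρ + 1 ≤ 2 ^ ρ := Nat.lt_two_pow_self
  have h2 : D + 1 ≤ 2 ^ D := Nat.lt_two_pow_self
  have h3 : 64 * D ^ 2 + 2 ≤ 2 ^ (2 * D + 7) := by
    rw [pow_add, pow_mul']
    have : (D + 1) ^ 2 ≤ (2 ^ D) ^ 2 := Nat.pow_le_pow_left h2 2
    nlinarith
  rw [pow_add]
  have h4 : 1 ≤ 2 ^ (2 * D + 7) := Nat.one_le_two_pow
  nlinarith

/-- the protocol -/
lemma upper_aux (hG : G.Connected) (src tgt : Fin E → V) (hadj : ∀ e, G.Adj (src e) (tgt e))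
    (hD : 0 < D) (ℓ : Fin E → Fin D → ℤ) (rig : Rigid src tgt ℓ) (c g : ℕ)
    (hc : ∀ e, ∑ i, |ℓ e i| ≤ c) (hg : 2 * c + 1 ≤ 2 ^ g) (n ρ : ℕ) (hρ : 0 < ρ)
    (hn : n ≤ ρ ^ 2) :
    ∃ P : Protocol V n, P.Legal G ∧ P.Correct ∧ ∀ x, P.cost x ≤
      E * ((g + ρ) * (n / (D * ρ) + 1 + 64 * D ^ 2)) + Fintype.card V ^ 3 := by
  set m : ℕ := n / (D * ρ) + 1 + 64 * D ^ 2 with hm
  set R : ℕ := 2 ^ ρ with hR
  have hDρ : 0 < D * ρ := Nat.mul_pos hD hρ
  have hm1 : n + 64 * D ^ 3 * ρ ≤ D * ρ * m := by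
    have h1 := Nat.lt_mul_div_succ n hDρ
    rw [hm]
    nlinarith
  have hm2 : m + 1 ≤ 2 ^ (ρ + (2 * D + 7)) := by
    refine le_trans ?_ (add_le_two_pow ρ D)
    have h1 : n / (D * ρ) ≤ ρ := by
      apply Nat.div_le_of_le_mul
      calc n ≤ ρ ^ 2 := hn
        _ = 1 * ρ * ρ := by ring
        _ ≤ D * ρ * ρ := by gcongr; omega
    omega
  have hcode : 2 ^ n * (m * R ^ 2 + 1) ^ (D * D) ≤ R ^ (D * m) := by
    have h1 : m * R ^ 2 + 1 ≤ 2 ^ (3 * ρ + 2 * D + 7) := by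
      have h2 : 1 ≤ R ^ 2 := Nat.one_le_pow _ _ (by positivity)
      calc m * R ^ 2 + 1 ≤ (m + 1) * R ^ 2 := by nlinarith
        _ ≤ 2 ^ (ρ + (2 * D + 7)) * R ^ 2 := Nat.mul_le_mul_right _ hm2
        _ = 2 ^ (3 * ρ + 2 * D + 7) := by
            rw [hR, ← pow_mul, ← pow_add]
            congr 1
            ring
    calc 2 ^ n * (m * R ^ 2 + 1) ^ (D * D) ≤ 2 ^ n * (2 ^ (3 * ρ + 2 * D + 7)) ^ (D * D) :=
          Nat.mul_le_mul_left _ (Nat.pow_le_pow_left h1 _)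
      _ = 2 ^ (n + (3 * ρ + 2 * D + 7) * (D * D)) := by rw [← pow_mul, ← pow_add]
      _ ≤ 2 ^ (ρ * (D * m)) := by
          apply Nat.pow_le_pow_right (by norm_num)
          have h3 : (3 * ρ + 2 * D + 7) * (D * D) ≤ 64 * D ^ 3 * ρ := by
            have h4 : D * D ≤ D ^ 3 * ρ := by
              calc D * D = D * D * 1 * 1 := by ring
                _ ≤ D * D * D * ρ := by gcongr <;> omega
                _ = D ^ 3 * ρ := by ring
            have h5 : ρ * (D * D) ≤ D ^ 3 * ρ := by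
              calc ρ * (D * D) = D * D * 1 * ρ := by ring
                _ ≤ D * D * D * ρ := by gcongr; omega
                _ = D ^ 3 * ρ := by ring
            have h6 : D * (D * D) ≤ D ^ 3 * ρ := by
              calc D * (D * D) = D ^ 3 * 1 := by ring
                _ ≤ D ^ 3 * ρ := by gcongr; omega
            nlinarith
          have h7 : D * ρ * m = ρ * (D * m) := by ring
          omega
      _ = R ^ (D * m) := by rw [hR, ← pow_mul]
  obtain ⟨W, Γ, hWinj, hWΓ, hWR⟩ := exists_code D m R n hcode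
  let T : Finset (Fin m → ℤ) := Fintype.piFinset (fun _ => Icc (-((c * R : ℕ) : ℤ)) ((c * R : ℕ) : ℤ))
  have hT : T.card ≤ 2 ^ ((g + ρ) * m) := by
    rw [Fintype.card_piFinset_const, Int.card_Icc, pow_mul]
    apply Nat.pow_le_pow_left
    have h1 : (((c * R : ℕ) : ℤ) + 1 - -((c * R : ℕ) : ℤ)).toNat = 2 * (c * R) + 1 := by omega
    rw [h1]
    have h2 : 1 ≤ R := Nat.one_le_two_pow
    calc 2 * (c * R) + 1 ≤ (2 * c + 1) * R := by nlinarith
      _ ≤ 2 ^ g * R := Nat.mul_le_mul_right _ hg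
      _ = 2 ^ (g + ρ) := by rw [hR, ← pow_add]
  obtain ⟨bits, hbits, hinj⟩ := exists_bits T ((g + ρ) * m) hT
  have hmem : ∀ e a, (fun k => ∑ i, ℓ e i * W a i k) ∈ T := by
    intro e a
    rw [Fintype.mem_piFinset]
    intro k
    rw [mem_Icc, ← abs_le]
    calc |∑ i, ℓ e i * W a i k| ≤ ∑ i, |ℓ e i * W a i k| := abs_sum_le_sum_abs _ _
      _ ≤ ∑ i, |ℓ e i| * R := by
          apply sum_le_sum
          intro i _
          rw [abs_mul]
          apply mul_le_mul_of_nonneg_left _ (abs_nonneg _)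
          rw [abs_of_nonneg (hWR a i k).1]
          exact (hWR a i k).2.le
      _ = (∑ i, |ℓ e i|) * R := by rw [sum_mul]
      _ ≤ c * R := mul_le_mul_of_nonneg_right (hc e) (by positivity)
      _ = ((c * R : ℕ) : ℤ) := by push_cast; ring
  let mess : Fin E → (Fin n → Bool) → List Bool := fun e a => bits (fun k => ∑ i, ℓ e i * W a i k)
  have hlen : ∀ e a, (mess e a).length = (g + ρ) * m := fun e a => hbits _
  refine ⟨proto G src tgt mess, proto_legal hadj hlen, proto_correct hG ?_, ?_⟩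
  · intro x hx v w
    apply hWinj
    apply rig m (fun v => W (x v)) Γ (fun v i j => hWΓ (x v) i j)
    intro e k
    have h1 := hinj (mem_coe.2 (hmem e (x (src e)))) (mem_coe.2 (hmem e (x (tgt e)))) (hx e)
    exact congrFun h1 k
  · intro x
    exact proto_cost hlen x

/-- The upper bound. -/
theorem upper_bound (hG : G.Connected) (src tgt : Fin E → V)
    (hadj : ∀ e, G.Adj (src e) (tgt e)) (hD : 0 < D) (ℓ : Fin E → Fin D → ℤ)
    (rig : Rigid src tgt ℓ) :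
    ∃ C : ℝ, ∀ n : ℕ, 1 ≤ n → ∃ P : Protocol V n, P.Legal G ∧ P.Correct ∧
      ∀ x, (P.cost x : ℝ) ≤ (E : ℝ) / D * n + C * Real.sqrt n := by
  obtain ⟨c, hc⟩ : ∃ c : ℕ, ∀ e, ∑ i, |ℓ e i| ≤ c := by
    refine ⟨(∑ e, ∑ i, |ℓ e i|).toNat, fun e => ?_⟩
    have h0 : 0 ≤ ∑ e, ∑ i, |ℓ e i| := sum_nonneg fun _ _ => sum_nonneg fun _ _ => abs_nonneg _
    rw [Int.toNat_of_nonneg h0]
    exact single_le_sum (f := fun e => ∑ i, |ℓ e i|)
      (fun _ _ => sum_nonneg fun _ _ => abs_nonneg _) (mem_univ e)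
  have hg : 2 * c + 1 ≤ 2 ^ (2 * c + 1) := Nat.lt_two_pow_self.le
  set g := 2 * c + 1 with hgdef
  have hDR : (1 : ℝ) ≤ D := by exact_mod_cast hD
  refine ⟨E * g / D + E * (g + 2) * (1 + 64 * D ^ 2) + Fintype.card V ^ 3, fun n hn => ?_⟩
  set s : ℝ := Real.sqrt n with hs
  have hs1 : 1 ≤ s := by
    rw [hs, Real.one_le_sqrt]
    exact_mod_cast hn
  have hsn : s ^ 2 = n := Real.sq_sqrt (Nat.cast_nonneg n)
  set ρ : ℕ := Nat.sqrt n + 1 with hρ
  have hnρ : n ≤ ρ ^ 2 := (Nat.lt_succ_sqrt' n).le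
  have hρ1 : s ≤ ρ := by
    rw [hs]
    apply Real.sqrt_le_iff.2
    exact ⟨by positivity, by exact_mod_cast hnρ⟩
  have hρ2 : (ρ : ℝ) ≤ 2 * s := by
    have h1 : ((Nat.sqrt n : ℕ) : ℝ) ≤ s := Real.nat_sqrt_le_real_sqrt
    rw [hρ]
    push_cast
    linarith
  obtain ⟨P, hP1, hP2, hP3⟩ := upper_aux hG src tgt hadj hD ℓ rig c g hc hg n ρ (by omega) hnρ
  refine ⟨P, hP1, hP2, fun x => ?_⟩
  have h1 : (P.cost x : ℝ) ≤ ((E * ((g + ρ) * (n / (D * ρ) + 1 + 64 * D ^ 2)) +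
    Fintype.card V ^ 3 : ℕ) : ℝ) := by exact_mod_cast hP3 x
  refine h1.trans ?_
  push_cast
  have hρpos : (0 : ℝ) < ρ := by linarith
  have h2 : ((n / (D * ρ) : ℕ) : ℝ) ≤ n / (D * ρ) := by
    have := Nat.cast_div_le (α := ℝ) (m := n) (n := D * ρ)
    push_cast at this
    exact this
  have h3 : (n : ℝ) / ρ ≤ s := by
    rw [div_le_iff₀ hρpos, ← hsn]
    nlinarith
  have h4 : ((g : ℝ) + ρ) * (((n / (D * ρ) : ℕ) : ℝ) + 1 + 64 * D ^ 2) ≤
      n / D + g / D * s + (g + 2) * (1 + 64 * D ^ 2) * s := by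
    have h5 : ((g : ℝ) + ρ) * ((n / (D * ρ) : ℕ) : ℝ) ≤ n / D + g / D * s := by
      calc ((g : ℝ) + ρ) * ((n / (D * ρ) : ℕ) : ℝ) ≤ (g + ρ) * (n / (D * ρ)) :=
            mul_le_mul_of_nonneg_left h2 (by positivity)
        _ = n / D + g / D * (n / ρ) := by field_simp; ring
        _ ≤ n / D + g / D * s := by
            have : (g : ℝ) / D * (n / ρ) ≤ g / D * s := mul_le_mul_of_nonneg_left h3 (by positivity)
            linarith
    have h6 : ((g : ℝ) + ρ) * (1 + 64 * D ^ 2) ≤ (g + 2) * (1 + 64 * D ^ 2) * s := by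
      have h7 : (g : ℝ) + ρ ≤ (g + 2) * s := by
        have : (0 : ℝ) ≤ g := Nat.cast_nonneg _
        nlinarith
      calc ((g : ℝ) + ρ) * (1 + 64 * D ^ 2) ≤ ((g + 2) * s) * (1 + 64 * D ^ 2) :=
            mul_le_mul_of_nonneg_right h7 (by positivity)
        _ = _ := by ring
    calc _ = ((g : ℝ) + ρ) * ((n / (D * ρ) : ℕ) : ℝ) + ((g : ℝ) + ρ) * (1 + 64 * D ^ 2) := by ring
      _ ≤ _ := by linarith
  have h8 : (Fintype.card V : ℝ) ^ 3 ≤ Fintype.card V ^ 3 * s := by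
    have : (0 : ℝ) ≤ (Fintype.card V : ℝ) ^ 3 := by positivity
    nlinarith
  calc (E : ℝ) * (((g : ℝ) + ρ) * (((n / (D * ρ) : ℕ) : ℝ) + 1 + 64 * D ^ 2)) +
      (Fintype.card V : ℝ) ^ 3 ≤
      E * (n / D + g / D * s + (g + 2) * (1 + 64 * D ^ 2) * s) + Fintype.card V ^ 3 * s :=
        add_le_add (mul_le_mul_of_nonneg_left h4 (Nat.cast_nonneg _)) h8
    _ = _ := by ring

end Pool.Agent.X243.EqTest
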