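import Pool.Agent.X243.EqTest.Lower
import Pool.Agent.X243.EqTest.Code

/-! The limit of the cost per input bit. -/

open Finset Filter Topology

namespace Pool.Agent.X243.EqTest

variable {V : Type*} [Fintype V] [DecidableEq V] {G : SimpleGraph V} {E D : ℕ}

open Classical in
theorem eqCost_limit (hG : G.Connected) (src tgt : Fin E → V)
    (hadj : ∀ e, G.Adj (src e) (tgt e)) (hD : 0 < D) (ℓ : Fin E → Fin D → ℤ)
    (rig : Rigid src tgt ℓ)
    (g : Finset V → ℝ) (h0 : ∀ S, 0 ≤ g S)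
    (hcut : ∀ S, g S ≠ 0 → S.Nonempty ∧ ∃ v, v ∉ S)
    (hedge : ∀ u v, G.Adj u v → ∑ S, (if Sep S u v then g S else 0) ≤ 1)
    (hsum : ∑ S, g S = (E : ℝ) / D) :
    Tendsto (fun n : ℕ => (eqCost G n : ℝ) / n) atTop (𝓝 ((E : ℝ) / D)) := by
  obtain ⟨C, hC⟩ := upper_bound hG src tgt hadj hD ℓ rig
  have hup : ∀ n : ℕ, 1 ≤ n → (eqCost G n : ℝ) ≤ (E : ℝ) / D * n + C * Real.sqrt n := by
    intro n hn
    obtain ⟨P, h1, h2, h3⟩ := hC n hn
    have h4 : (0 : ℝ) ≤ (E : ℝ) / D * n + C * Real.sqrt n :=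
      le_trans (Nat.cast_nonneg _) (h3 (fun _ _ => false))
    have h5 : eqCost G n ≤ ⌊(E : ℝ) / D * n + C * Real.sqrt n⌋₊ :=
      Nat.sInf_le ⟨P, h1, h2, fun x => Nat.le_floor (h3 x)⟩
    exact (by exact_mod_cast h5 : (eqCost G n : ℝ) ≤ _).trans (Nat.floor_le h4)
  have hlow : ∀ n : ℕ, 1 ≤ n → (E : ℝ) / D * n ≤ (eqCost G n : ℝ) := by
    intro n hn
    obtain ⟨P, h1, h2, h3⟩ := hC n hn
    have h4 : {c | ∃ P : Protocol V n, P.Legal G ∧ P.Correct ∧ ∀ x, P.cost x ≤ c}.Nonempty :=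
      ⟨⌊(E : ℝ) / D * n + C * Real.sqrt n⌋₊, P, h1, h2, fun x => Nat.le_floor (h3 x)⟩
    obtain ⟨Q, hQ1, hQ2, hQ3⟩ := Nat.sInf_mem h4
    obtain ⟨x, hx⟩ := lower_bound hQ1 hQ2 g h0 hcut hedge
    rw [hsum] at hx
    have h5 : (Q.cost x : ℝ) ≤ eqCost G n := by exact_mod_cast hQ3 x
    linarith
  have hlim : Tendsto (fun n : ℕ => (E : ℝ) / D + C / Real.sqrt n) atTop
      (𝓝 ((E : ℝ) / D + 0)) := by
    apply Tendsto.add tendsto_const_nhds
    apply Tendsto.div_atTop tendsto_const_nhds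
    exact Real.tendsto_sqrt_atTop.comp tendsto_natCast_atTop_atTop
  rw [add_zero] at hlim
  apply tendsto_of_tendsto_of_tendsto_of_le_of_le' tendsto_const_nhds hlim
  · filter_upwards [eventually_ge_atTop 1] with n hn
    have hnpos : (0 : ℝ) < n := by exact_mod_cast hn
    rw [le_div_iff₀ hnpos]
    exact hlow n hn
  · filter_upwards [eventually_ge_atTop 1] with n hn
    have hnpos : (0 : ℝ) < n := by exact_mod_cast hn
    rw [div_le_iff₀ hnpos]
    refine (hup n hn).trans (le_of_eq ?_)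
    have h1 : Real.sqrt n ≠ 0 := (Real.sqrt_pos.2 hnpos).ne'
    have h2 : Real.sqrt n * Real.sqrt n = n := Real.mul_self_sqrt hnpos.le
    rw [add_mul]
    congr 1
    rw [div_mul_eq_mul_div, eq_div_iff h1, mul_assoc, h2]

end Pool.Agent.X243.EqTest
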