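import Pool.Agent.X243.EqTest.Model

/-! The lower bound by fractional packings of cuts. -/

open Finset

namespace Pool.Agent.X243.EqTest

set_option linter.unusedSectionVars false

variable {V : Type*} [Fintype V] {n : ℕ}

open Classical in
/-- crossing transcript up to round `r` -/
noncomputable def tau (P : Protocol V n) (S : Finset V) (r : ℕ) (a : Fin n → Bool) :
    ℕ → V → V → List Bool :=
  fun s u v => if s < r ∧ Sep S u v then P.msg (fun _ => a) s u v else []

/-- total length of the rounds before `r` -/
def len (r : ℕ) (t : ℕ → V → V → List Bool) : ℕ := ∑ s ∈ range r, ∑ u, ∑ v, (t s u v).length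

lemma sep_symm {S : Finset V} {u v : V} (h : Sep S u v) : Sep S v u := by
  rcases h with ⟨h1, h2⟩ | ⟨h1, h2⟩
  · exact Or.inr ⟨h2, h1⟩
  · exact Or.inl ⟨h2, h1⟩

lemma list_ext {l l' : List Bool} {k : ℕ} (h : l.length = k) (h' : l'.length = k)
    (hh : ∀ i : Fin k, l.getD i false = l'.getD i false) : l = l' := by
  apply List.ext_getElem (by rw [h, h'])
  intro i h1 h2
  have := hh ⟨i, by omega⟩
  simp only [List.getD_eq_getElem?_getD] at this
  rwa [List.getElem?_eq_getElem h1, List.getElem?_eq_getElem h2, Option.getD_some,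
    Option.getD_some] at this

open Classical in
lemma kraft {G : SimpleGraph V} {P : Protocol V n} (hL : P.Legal G) (S : Finset V) :
    ∀ r ≤ P.rounds, ∑ t ∈ univ.image (tau P S r), (1 / 2 : ℝ) ^ len r t ≤ 1 := by
  intro r
  induction r with
  | zero =>
    intro _
    have h1 : univ.image (tau P S 0) = {fun _ _ _ => []} := by
      ext t
      rw [mem_image, mem_singleton]
      constructor
      · rintro ⟨a, -, rfl⟩
        funext s u v
        simp [tau]
      · rintro rfl
        refine ⟨fun _ => false, mem_univ _, ?_⟩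
        funext s u v
        simp [tau]
    rw [h1, sum_singleton]
    simp [len]
  | succ r ih =>
    intro hr
    refine le_trans ?_ (ih (by omega))
    let ρ : (ℕ → V → V → List Bool) → (ℕ → V → V → List Bool) :=
      fun t s u v => if s < r then t s u v else []
    have hρ : ∀ a, ρ (tau P S (r + 1) a) = tau P S r a := by
      intro a
      funext s u v
      simp only [ρ, tau]
      by_cases h : s < r
      · rw [if_pos h]
        by_cases h2 : Sep S u v
        · rw [if_pos ⟨by omega, h2⟩, if_pos ⟨h, h2⟩]
        · rw [if_neg (fun h3 => h2 h3.2), if_neg (fun h3 => h2 h3.2)]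
      · rw [if_neg h, if_neg (fun h3 => h h3.1)]
    have hmaps : ∀ t ∈ univ.image (tau P S (r + 1)), ρ t ∈ univ.image (tau P S r) := by
      intro t ht
      obtain ⟨a, -, rfl⟩ := mem_image.1 ht
      rw [hρ]
      exact mem_image_of_mem _ (mem_univ _)
    rw [← sum_fiberwise_of_maps_to hmaps]
    apply sum_le_sum
    intro t ht
    obtain ⟨a0, -, rfl⟩ := mem_image.1 ht
    set F := (univ.image (tau P S (r + 1))).filter (fun t => ρ t = tau P S r a0) with hF
    let lam : V × V → ℕ := fun p => (tau P S (r + 1) a0 r p.1 p.2).length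
    have hlam : ∀ t ∈ F, ∀ u v, (t r u v).length = lam (u, v) := by
      intro t ht u v
      rw [hF, mem_filter] at ht
      obtain ⟨ht1, ht2⟩ := ht
      obtain ⟨b, -, rfl⟩ := mem_image.1 ht1
      rw [hρ] at ht2
      simp only [lam, tau]
      by_cases h2 : Sep S u v
      · rw [if_pos ⟨by omega, h2⟩, if_pos ⟨by omega, h2⟩]
        apply hL.len _ _ r u v (by omega)
        intro s hs
        have h3 := congrFun (congrFun (congrFun ht2 s) u) v
        have h4 := congrFun (congrFun (congrFun ht2 s) v) u
        simp only [tau] at h3 h4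
        rw [if_pos ⟨hs, h2⟩, if_pos ⟨hs, h2⟩] at h3
        rw [if_pos ⟨hs, sep_symm h2⟩, if_pos ⟨hs, sep_symm h2⟩] at h4
        exact ⟨h3, h4⟩
      · rw [if_neg (fun h3 => h2 h3.2), if_neg (fun h3 => h2 h3.2)]
    set Lam : ℕ := ∑ p, lam p with hLam
    have hlen : ∀ t ∈ F, len (r + 1) t = len r (tau P S r a0) + Lam := by
      intro t ht
      unfold len
      rw [sum_range_succ]
      congr 1
      · apply sum_congr rfl
        intro s hs
        rw [mem_range] at hs
        have h2 := (mem_filter.1 ht).2
        apply sum_congr rfl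
        intro u _
        apply sum_congr rfl
        intro v _
        have h3 := congrFun (congrFun (congrFun h2 s) u) v
        simp only [ρ] at h3
        rw [if_pos hs] at h3
        rw [h3]
      · rw [hLam, Fintype.sum_prod_type]
        apply sum_congr rfl
        intro u _
        apply sum_congr rfl
        intro v _
        exact hlam t ht u v
    have hcard : (F.card : ℝ) ≤ 2 ^ Lam := by
      have h1 : F.card ≤ Fintype.card ((p : V × V) → (Fin (lam p) → Bool)) := by
        rw [← card_univ]
        apply card_le_card_of_injOn (fun (t : ℕ → V → V → List Bool) (p : V × V)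
          (i : Fin (lam p)) => (t r p.1 p.2).getD i false)
        · intro t _
          exact mem_coe.2 (mem_univ _)
        · intro t1 h1 t2 h2 h12
          have h1' := mem_coe.1 h1
          have h2' := mem_coe.1 h2
          funext s u v
          rcases lt_trichotomy s r with hs | hs | hs
          · have h3 := congrFun (congrFun (congrFun ((mem_filter.1 h1').2.trans
              (mem_filter.1 h2').2.symm) s) u) v
            simp only [ρ] at h3
            rwa [if_pos hs, if_pos hs] at h3
          · subst hs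
            apply list_ext (hlam t1 h1' u v) (hlam t2 h2' u v)
            intro i
            exact congrFun (congrFun h12 (u, v)) i
          · obtain ⟨a1, -, rfl⟩ := mem_image.1 (mem_filter.1 h1').1
            obtain ⟨a2, -, rfl⟩ := mem_image.1 (mem_filter.1 h2').1
            simp only [tau]
            rw [if_neg (by rintro ⟨h3, -⟩; omega), if_neg (by rintro ⟨h3, -⟩; omega)]
      have h2 : Fintype.card ((p : V × V) → (Fin (lam p) → Bool)) = 2 ^ Lam := by
        rw [Fintype.card_pi, hLam, ← prod_pow_eq_pow_sum]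
        apply prod_congr rfl
        intro p _
        simp
      rw [h2] at h1
      exact_mod_cast h1
    calc ∑ t ∈ F, (1 / 2 : ℝ) ^ len (r + 1) t =
        ∑ t ∈ F, (1 / 2 : ℝ) ^ (len r (tau P S r a0) + Lam) :=
          sum_congr rfl fun t ht => by rw [hlen t ht]
      _ = F.card * ((1 / 2 : ℝ) ^ len r (tau P S r a0) * (1 / 2 : ℝ) ^ Lam) := by
          rw [sum_const, nsmul_eq_mul, pow_add]
      _ ≤ 2 ^ Lam * ((1 / 2 : ℝ) ^ len r (tau P S r a0) * (1 / 2 : ℝ) ^ Lam) :=
          mul_le_mul_of_nonneg_right hcard (by positivity)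
      _ = (1 / 2 : ℝ) ^ len r (tau P S r a0) := by
          rw [mul_left_comm, ← mul_pow]
          norm_num

/-- the integer form of convexity -/
lemma one_add_le_two_zpow (t : ℤ) : (1 + t : ℝ) ≤ (2 : ℝ) ^ t := by
  rcases le_or_gt 0 t with h | h
  · obtain ⟨k, rfl⟩ := Int.eq_ofNat_of_zero_le h
    rw [zpow_natCast]
    have h1 : k + 1 ≤ 2 ^ k := Nat.lt_two_pow_self
    have h2 : ((k + 1 : ℕ) : ℝ) ≤ ((2 ^ k : ℕ) : ℝ) := by exact_mod_cast h1
    push_cast at h2 ⊢
    linarith
  · have h1 : (t : ℝ) ≤ -1 := by exact_mod_cast (by omega : t ≤ -1)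
    have h2 : (0 : ℝ) < (2 : ℝ) ^ t := by positivity
    linarith

open Classical in
/-- the average length of the crossing communication on the inputs with all strings equal -/
lemma avg_cross {G : SimpleGraph V} {P : Protocol V n} (hL : P.Legal G) (hC : P.Correct)
    (S : Finset V) (hS : S.Nonempty) (hS' : ∃ v, v ∉ S) :
    (n : ℝ) * 2 ^ n ≤ ∑ a : Fin n → Bool, (len P.rounds (tau P S P.rounds a) : ℝ) := by
  have hinj : Function.Injective (tau P S P.rounds) := by
    intro a b hab
    apply cut_paste (G := G) hC S hS hS' a b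
    intro s hs u v huv
    have h1 := congrFun (congrFun (congrFun hab s) u) v
    simp only [tau] at h1
    rwa [if_pos ⟨hs, huv⟩, if_pos ⟨hs, huv⟩] at h1
  have h1 := kraft hL S P.rounds le_rfl
  rw [sum_image (fun a _ b _ h => hinj h)] at h1
  have h2 : ∑ a : Fin n → Bool, (1 + ((n : ℝ) - len P.rounds (tau P S P.rounds a))) ≤
      2 ^ n * ∑ a : Fin n → Bool, (1 / 2 : ℝ) ^ len P.rounds (tau P S P.rounds a) := by
    rw [mul_sum]
    apply sum_le_sum
    intro a _
    have h3 := one_add_le_two_zpow ((n : ℤ) - len P.rounds (tau P S P.rounds a))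
    rw [zpow_sub₀ (by norm_num), zpow_natCast, zpow_natCast] at h3
    push_cast at h3
    refine h3.trans (le_of_eq ?_)
    rw [one_div, inv_pow, div_eq_mul_inv]
  have h4 : ∑ a : Fin n → Bool, (1 + ((n : ℝ) - len P.rounds (tau P S P.rounds a))) =
      2 ^ n * (1 + n) - ∑ a : Fin n → Bool, (len P.rounds (tau P S P.rounds a) : ℝ) := by
    have h5 : ∀ a : Fin n → Bool, (1 + ((n : ℝ) - len P.rounds (tau P S P.rounds a))) =
        (1 + n) - (len P.rounds (tau P S P.rounds a) : ℝ) := fun a => by ring
    rw [sum_congr rfl (fun a _ => h5 a), sum_sub_distrib, sum_const, nsmul_eq_mul]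
    simp
  rw [h4] at h2
  have h6 : (2 : ℝ) ^ n * ∑ a : Fin n → Bool, (1 / 2 : ℝ) ^ len P.rounds (tau P S P.rounds a) ≤
      2 ^ n * 1 := mul_le_mul_of_nonneg_left h1 (by positivity)
  nlinarith

open Classical in
/-- The lower bound: a fractional packing `g` of cuts forces cost `n ∑ g`. -/
theorem lower_bound {G : SimpleGraph V} {P : Protocol V n} (hL : P.Legal G) (hC : P.Correct)
    (g : Finset V → ℝ) (h0 : ∀ S, 0 ≤ g S)
    (hcut : ∀ S, g S ≠ 0 → S.Nonempty ∧ ∃ v, v ∉ S)
    (hedge : ∀ u v, G.Adj u v → ∑ S, (if Sep S u v then g S else 0) ≤ 1) :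
    ∃ x, (n : ℝ) * ∑ S, g S ≤ P.cost x := by
  by_contra hcon
  push Not at hcon
  have h1 : ∀ a : Fin n → Bool, ∑ S, g S * len P.rounds (tau P S P.rounds a) ≤
      P.cost (fun _ => a) := by
    intro a
    have h2 : ∀ S : Finset V, g S * (len P.rounds (tau P S P.rounds a) : ℝ) =
        ∑ s ∈ range P.rounds, ∑ u, ∑ v, (if Sep S u v then g S else 0) *
          ((P.msg (fun _ => a) s u v).length : ℝ) := by
      intro S
      unfold len
      push_cast
      rw [mul_sum]
      apply sum_congr rfl
      intro s hs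
      rw [mul_sum]
      apply sum_congr rfl
      intro u _
      rw [mul_sum]
      apply sum_congr rfl
      intro v _
      rw [mem_range] at hs
      simp only [tau]
      by_cases h3 : Sep S u v
      · rw [if_pos ⟨hs, h3⟩, if_pos h3]
      · rw [if_neg (fun h4 => h3 h4.2), if_neg h3]
        simp
    rw [sum_congr rfl (fun S _ => h2 S), sum_comm]
    unfold Protocol.cost
    push_cast
    apply sum_le_sum
    intro s _
    rw [sum_comm]
    apply sum_le_sum
    intro u _
    rw [sum_comm]
    apply sum_le_sum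
    intro v _
    rw [← sum_mul]
    by_cases h4 : G.Adj u v
    · have h5 := hedge u v h4
      have h6 : (0 : ℝ) ≤ ((P.msg (fun _ => a) s u v).length : ℝ) := Nat.cast_nonneg _
      nlinarith
    · rw [hL.adj _ s u v h4]
      simp
  have h7 : ∑ a : Fin n → Bool, ∑ S, g S * (len P.rounds (tau P S P.rounds a) : ℝ) <
      ∑ a : Fin n → Bool, (n : ℝ) * ∑ S, g S := by
    apply sum_lt_sum_of_nonempty ⟨fun _ => false, mem_univ _⟩
    intro a _
    exact (h1 a).trans_lt (hcon _)
  rw [sum_comm] at h7
  have h8 : ∑ S, g S * ((n : ℝ) * 2 ^ n) ≤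
      ∑ S, ∑ a : Fin n → Bool, g S * (len P.rounds (tau P S P.rounds a) : ℝ) := by
    apply sum_le_sum
    intro S _
    rw [← mul_sum]
    by_cases h9 : g S = 0
    · rw [h9]
      simp
    · obtain ⟨h10, h11⟩ := hcut S h9
      exact mul_le_mul_of_nonneg_left (avg_cross hL hC S h10 h11) (h0 S)
  rw [← sum_mul] at h8
  have h12 : ∑ a : Fin n → Bool, (n : ℝ) * ∑ S, g S = (∑ S, g S) * (n * 2 ^ n) := by
    rw [sum_const, nsmul_eq_mul]
    simp
    ring
  rw [h12] at h7
  linarith

end Pool.Agent.X243.EqTest
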