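import Mathlib

/-! Deterministic protocols for the equality problem on a communication graph. -/

open Finset

namespace Pool.Agent.X243.EqTest

/-- A deterministic protocol for players at the vertices of `G` holding `n`-bit strings.
It runs for `rounds` rounds. In round `r` player `u` sends to player `v` the bit string
`send r u v a h`, where `a` is the input of `u` and `h s w` is the bit string that `u` has received
from `w` in the round `s < r`. In the end player `u` outputs `output u a h`. -/
structure Protocol (V : Type*) (n : ℕ) where
  rounds : ℕ
  send : ℕ → V → V → (Fin n → Bool) → (ℕ → V → List Bool) → List Bool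
  output : V → (Fin n → Bool) → (ℕ → V → List Bool) → Bool

variable {V : Type*} {n : ℕ}

/-- `P.hist x r s u v` is the bit string sent from `u` to `v` in round `s`, for `s < r` (and empty
for `s ≥ r`), when the inputs are `x`. -/
def Protocol.hist (P : Protocol V n) (x : V → Fin n → Bool) : ℕ → ℕ → V → V → List Bool
  | 0 => fun _ _ _ => []
  | r + 1 => fun s u v =>
      if s = r then P.send r u v (x u) (fun s' w => P.hist x r s' w u) else P.hist x r s u v

/-- The bit string sent from `u` to `v` in round `s`. -/
def Protocol.msg (P : Protocol V n) (x : V → Fin n → Bool) (s : ℕ) (u v : V) : List Bool :=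
  P.hist x P.rounds s u v

/-- The total number of bits sent on the input `x`. -/
def Protocol.cost [Fintype V] (P : Protocol V n) (x : V → Fin n → Bool) : ℕ :=
  ∑ s ∈ range P.rounds, ∑ u, ∑ v, (P.msg x s u v).length

/-- The protocol respects the communication graph `G`: bits are sent only to neighbours, and the
number of bits sent from `u` to `v` in a round is determined by the bits exchanged between `u` and
`v` in earlier rounds (so a silent round conveys no information by itself). -/
structure Protocol.Legal (P : Protocol V n) (G : SimpleGraph V) : Prop where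
  adj : ∀ x s u v, ¬ G.Adj u v → P.msg x s u v = []
  len : ∀ x y r u v, r < P.rounds →
    (∀ s < r, P.msg x s u v = P.msg y s u v ∧ P.msg x s v u = P.msg y s v u) →
    (P.msg x r u v).length = (P.msg y r u v).length

/-- Every player correctly decides whether all inputs are equal. -/
def Protocol.Correct (P : Protocol V n) : Prop :=
  ∀ (x : V → Fin n → Bool) (u : V),
    P.output u (x u) (fun s w => P.msg x s w u) = true ↔ ∀ v w, x v = x w

/-- `f(n, G)`: the least worst-case number of bits of a protocol that decides whether all `n`-bit
strings are equal. -/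
noncomputable def eqCost [Fintype V] (G : SimpleGraph V) (n : ℕ) : ℕ :=
  sInf {c | ∃ P : Protocol V n, P.Legal G ∧ P.Correct ∧ ∀ x, P.cost x ≤ c}

/-! ## The history -/

lemma hist_ge (P : Protocol V n) (x : V → Fin n → Bool) (r s : ℕ) (h : r ≤ s) (u v : V) :
    P.hist x r s u v = [] := by
  induction r with
  | zero => rfl
  | succ r ih =>
    simp only [Protocol.hist]
    rw [if_neg (by omega), ih (by omega)]

lemma hist_stable (P : Protocol V n) (x : V → Fin n → Bool) {r r' s : ℕ} (h : s < r)
    (h' : r ≤ r') (u v : V) : P.hist x r' s u v = P.hist x r s u v := by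
  induction r', h' using Nat.le_induction with
  | base => rfl
  | succ r' hr' ih =>
    rw [← ih]
    simp only [Protocol.hist]
    rw [if_neg (by omega)]

lemma hist_eq (P : Protocol V n) (x : V → Fin n → Bool) {r : ℕ} (hr : r ≤ P.rounds) (s : ℕ)
    (u v : V) : P.hist x r s u v = if s < r then P.msg x s u v else [] := by
  split_ifs with h
  · exact (hist_stable P x h hr u v).symm
  · exact hist_ge P x r s (by omega) u v

lemma msg_eq (P : Protocol V n) (x : V → Fin n → Bool) {r : ℕ} (hr : r < P.rounds) (u v : V) :
    P.msg x r u v = P.send r u v (x u) (fun s w => if s < r then P.msg x s w u else []) := by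
  unfold Protocol.msg
  rw [hist_stable P x (Nat.lt_succ_self r) hr u v]
  simp only [Protocol.hist, if_true]
  congr 1
  funext s w
  exact hist_eq P x hr.le s w u

lemma msg_ge (P : Protocol V n) (x : V → Fin n → Bool) {r : ℕ} (hr : P.rounds ≤ r) (u v : V) :
    P.msg x r u v = [] := hist_ge P x _ _ hr u v

/-! ## The cut argument -/

/-- `u` and `v` are separated by `S` -/
def Sep (S : Finset V) (u v : V) : Prop := (u ∈ S ∧ v ∉ S) ∨ (u ∉ S ∧ v ∈ S)

lemma cut_paste {G : SimpleGraph V} {P : Protocol V n} (hP : P.Correct) (S : Finset V)
    (hS : S.Nonempty) (hS' : ∃ v, v ∉ S) (a b : Fin n → Bool)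
    (h : ∀ s < P.rounds, ∀ u v, Sep S u v →
      P.msg (fun _ => a) s u v = P.msg (fun _ => b) s u v) : a = b := by
  classical
  by_contra hab
  obtain ⟨u0, hu0⟩ := hS
  obtain ⟨v0, hv0⟩ := hS'
  let x : V → Fin n → Bool := fun v => if v ∈ S then a else b
  have key : ∀ r, ∀ u v, (u ∈ S ∨ v ∈ S → P.msg x r u v = P.msg (fun _ => a) r u v) ∧
      (u ∉ S ∨ v ∉ S → P.msg x r u v = P.msg (fun _ => b) r u v) := by
    intro r
    induction r using Nat.strong_induction_on with
    | _ r ih =>
      intro u v
      by_cases hr : r < P.rounds
      · have hu : (u ∈ S → P.msg x r u v = P.msg (fun _ => a) r u v) := by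
          intro hu
          rw [msg_eq P x hr, msg_eq P (fun _ => a) hr]
          have : x u = a := if_pos hu
          rw [this]
          congr 1
          funext s w
          split_ifs with hs
          · exact (ih s hs w u).1 (Or.inr hu)
          · rfl
        have hu' : (u ∉ S → P.msg x r u v = P.msg (fun _ => b) r u v) := by
          intro hu
          rw [msg_eq P x hr, msg_eq P (fun _ => b) hr]
          have : x u = b := if_neg hu
          rw [this]
          congr 1
          funext s w
          split_ifs with hs
          · exact (ih s hs w u).2 (Or.inr hu)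
          · rfl
        constructor
        · rintro (h1 | h1)
          · exact hu h1
          · by_cases h2 : u ∈ S
            · exact hu h2
            · rw [hu' h2, h r hr u v (Or.inr ⟨h2, h1⟩)]
        · rintro (h1 | h1)
          · exact hu' h1
          · by_cases h2 : u ∈ S
            · rw [hu h2, h r hr u v (Or.inl ⟨h2, h1⟩)]
            · exact hu' h2
      · rw [msg_ge P x (by omega), msg_ge P _ (by omega), msg_ge P _ (by omega)]
        exact ⟨fun _ => rfl, fun _ => rfl⟩
  have h1 := (hP (fun _ => a) u0).2 (fun _ _ => rfl)
  have h2 : P.output u0 (x u0) (fun s w => P.msg x s w u0) = true := by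
    have h3 : x u0 = a := if_pos hu0
    rw [h3, ← h1]
    congr 1
    funext s w
    exact (key s w u0).1 (Or.inr hu0)
  have h4 := (hP x u0).1 h2 u0 v0
  have h5 : x u0 = a := if_pos hu0
  have h6 : x v0 = b := if_neg hv0
  rw [h5, h6] at h4
  exact hab h4

end Pool.Agent.X243.EqTest
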