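import Pool.Agent.X243.EqTest.Limit

/-! The Petersen graph. -/

open Finset Filter Topology

namespace Pool.Agent.X243.EqTest

/-- the first end of the `e`-th edge of the Petersen graph -/
def pSrc : Fin 15 → Fin 10 := ![0, 0, 0, 1, 1, 1, 2, 2, 2, 3, 3, 3, 4, 6, 8]

/-- the second end of the `e`-th edge of the Petersen graph -/
def pTgt : Fin 15 → Fin 10 := ![4, 6, 8, 5, 6, 9, 5, 7, 8, 4, 7, 9, 5, 7, 9]

/-- The Petersen graph, with vertices `0, …, 9` and the 15 edges `{pSrc e, pTgt e}`. -/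
def petersen : SimpleGraph (Fin 10) where
  Adj u v := ∃ e, (pSrc e = u ∧ pTgt e = v) ∨ (pSrc e = v ∧ pTgt e = u)
  symm := ⟨by
    rintro u v ⟨e, h⟩
    exact ⟨e, h.symm⟩⟩
  loopless := ⟨by decide⟩

instance : DecidableRel petersen.Adj := fun u v => by
  unfold petersen
  infer_instance

/-- the linear messages -/
def pL : Fin 15 → Fin 3 → ℤ :=
  ![![1, 1, 2], ![1, 2, 1], ![2, 1, 1], ![1, 1, -2], ![1, 2, -1], ![2, 1, -1],
    ![1, -1, 2], ![1, -2, 1], ![2, -1, 1], ![-1, 1, 2], ![-1, 2, 1], ![-2, 1, 1],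
    ![0, 0, 1], ![0, 1, 0], ![1, 0, 0]]

lemma quad {m : ℕ} (s1 s2 s3 : ℤ) (w1 w2 w3 z1 z2 z3 : Fin m → ℤ) (Γ : Fin 3 → Fin 3 → ℤ)
    (h11 : w1 ⬝ᵥ w1 = Γ 0 0) (h22 : w2 ⬝ᵥ w2 = Γ 1 1) (h33 : w3 ⬝ᵥ w3 = Γ 2 2)
    (h12 : w1 ⬝ᵥ w2 = Γ 0 1) (h13 : w1 ⬝ᵥ w3 = Γ 0 2) (h23 : w2 ⬝ᵥ w3 = Γ 1 2)
    (hz1 : z1 ⬝ᵥ z1 = Γ 0 0) (hz2 : z2 ⬝ᵥ z2 = Γ 1 1) (hz3 : z3 ⬝ᵥ z3 = Γ 2 2)
    (hs1 : s1 * s1 = 1) (hs2 : s2 * s2 = 1) (hs3 : s3 * s3 = 1)
    (e1 : ((2 * s1) • w1 + s2 • w2 + s3 • w3) ⬝ᵥ z1 = 2 * s1 * Γ 0 0 + s2 * Γ 0 1 + s3 * Γ 0 2)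
    (e2 : (s1 • w1 + (2 * s2) • w2 + s3 • w3) ⬝ᵥ z2 = s1 * Γ 0 1 + 2 * s2 * Γ 1 1 + s3 * Γ 1 2)
    (e3 : (s1 • w1 + s2 • w2 + (2 * s3) • w3) ⬝ᵥ z3 = s1 * Γ 0 2 + s2 * Γ 1 2 + 2 * s3 * Γ 2 2) :
    (w1 - z1) ⬝ᵥ (w1 - z1) + (w2 - z2) ⬝ᵥ (w2 - z2) + (w3 - z3) ⬝ᵥ (w3 - z3) +
      (s1 • (w1 - z1) + s2 • (w2 - z2) + s3 • (w3 - z3)) ⬝ᵥ
        (s1 • (w1 - z1) + s2 • (w2 - z2) + s3 • (w3 - z3)) =
      2 * (s1 * s2 * (z1 ⬝ᵥ z2 - Γ 0 1) + s1 * s3 * (z1 ⬝ᵥ z3 - Γ 0 2) +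
        s2 * s3 * (z2 ⬝ᵥ z3 - Γ 1 2)) := by
  have c1 := dotProduct_comm z1 w1
  have c2 := dotProduct_comm z2 w2
  have c3 := dotProduct_comm z3 w3
  have c21 := dotProduct_comm w2 w1
  have c31 := dotProduct_comm w3 w1
  have c32 := dotProduct_comm w3 w2
  have d21 := dotProduct_comm z2 z1
  have d31 := dotProduct_comm z3 z1
  have d32 := dotProduct_comm z3 z2
  have f12 := dotProduct_comm z1 w2
  have f13 := dotProduct_comm z1 w3
  have f21 := dotProduct_comm z2 w1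
  have f23 := dotProduct_comm z2 w3
  have f31 := dotProduct_comm z3 w1
  have f32 := dotProduct_comm z3 w2
  simp only [add_dotProduct, dotProduct_add, sub_dotProduct, dotProduct_sub, smul_dotProduct,
    dotProduct_smul, smul_eq_mul] at *
  rw [c1, c2, c3, c21, c31, c32, d21, d31, d32, f12, f13, f21, f23, f31, f32, h11, h22, h33, h12,
    h13, h23, hz1, hz2, hz3]
  linear_combination (-2 * s1) * e1 + (-2 * s2) * e2 + (-2 * s3) * e3 -
    2 * (Γ 0 0 - w1 ⬝ᵥ z1) * hs1 - 2 * (Γ 1 1 - w2 ⬝ᵥ z2) * hs2 - 2 * (Γ 2 2 - w3 ⬝ᵥ z3) * hs3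

lemma eq_of_dot {m : ℕ} {w z : Fin m → ℤ} (h : (w - z) ⬝ᵥ (w - z) ≤ 0) : w = z := by
  have h1 : 0 ≤ (w - z) ⬝ᵥ (w - z) := sum_nonneg fun k _ => mul_self_nonneg _
  have h2 : (w - z) ⬝ᵥ (w - z) = 0 := le_antisymm h h1
  exact sub_eq_zero.1 (dotProduct_self_eq_zero.1 h2)

lemma petersen_rigid : Rigid pSrc pTgt pL := by
  intro m W Γ hW hE
  have hG : ∀ v i j, W v i ⬝ᵥ W v j = Γ i j := hW
  have hΓ : ∀ i j, Γ i j = Γ j i := by
    intro i j
    rw [← hG 0 i j, ← hG 0 j i]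
    exact dotProduct_comm _ _
  have E0 : ∀ k, W 0 0 k + W 0 1 k + 2 * W 0 2 k = W 4 0 k + W 4 1 k + 2 * W 4 2 k := by
    intro k
    have := hE 0 k
    simp [Fin.sum_univ_three, pL, pSrc, pTgt] at this
    linarith
  have E1 : ∀ k, W 0 0 k + 2 * W 0 1 k + W 0 2 k = W 6 0 k + 2 * W 6 1 k + W 6 2 k := by
    intro k
    have := hE 1 k
    simp [Fin.sum_univ_three, pL, pSrc, pTgt] at this
    linarith
  have E2 : ∀ k, 2 * W 0 0 k + W 0 1 k + W 0 2 k = 2 * W 8 0 k + W 8 1 k + W 8 2 k := by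
    intro k
    have := hE 2 k
    simp [Fin.sum_univ_three, pL, pSrc, pTgt] at this
    linarith
  have E3 : ∀ k, W 1 0 k + W 1 1 k - 2 * W 1 2 k = W 5 0 k + W 5 1 k - 2 * W 5 2 k := by
    intro k
    have := hE 3 k
    simp [Fin.sum_univ_three, pL, pSrc, pTgt] at this
    linarith
  have E4 : ∀ k, W 1 0 k + 2 * W 1 1 k - W 1 2 k = W 6 0 k + 2 * W 6 1 k - W 6 2 k := by
    intro k
    have := hE 4 k
    simp [Fin.sum_univ_three, pL, pSrc, pTgt] at this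
    linarith
  have E5 : ∀ k, 2 * W 1 0 k + W 1 1 k - W 1 2 k = 2 * W 9 0 k + W 9 1 k - W 9 2 k := by
    intro k
    have := hE 5 k
    simp [Fin.sum_univ_three, pL, pSrc, pTgt] at this
    linarith
  have E6 : ∀ k, W 2 0 k - W 2 1 k + 2 * W 2 2 k = W 5 0 k - W 5 1 k + 2 * W 5 2 k := by
    intro k
    have := hE 6 k
    simp [Fin.sum_univ_three, pL, pSrc, pTgt] at this
    linarith
  have E7 : ∀ k, W 2 0 k - 2 * W 2 1 k + W 2 2 k = W 7 0 k - 2 * W 7 1 k + W 7 2 k := by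
    intro k
    have := hE 7 k
    simp [Fin.sum_univ_three, pL, pSrc, pTgt] at this
    linarith
  have E8 : ∀ k, 2 * W 2 0 k - W 2 1 k + W 2 2 k = 2 * W 8 0 k - W 8 1 k + W 8 2 k := by
    intro k
    have := hE 8 k
    simp [Fin.sum_univ_three, pL, pSrc, pTgt] at this
    linarith
  have E9 : ∀ k, -W 3 0 k + W 3 1 k + 2 * W 3 2 k = -W 4 0 k + W 4 1 k + 2 * W 4 2 k := by
    intro k
    have := hE 9 k
    simp [Fin.sum_univ_three, pL, pSrc, pTgt] at this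
    linarith
  have E10 : ∀ k, -W 3 0 k + 2 * W 3 1 k + W 3 2 k = -W 7 0 k + 2 * W 7 1 k + W 7 2 k := by
    intro k
    have := hE 10 k
    simp [Fin.sum_univ_three, pL, pSrc, pTgt] at this
    linarith
  have E11 : ∀ k, -2 * W 3 0 k + W 3 1 k + W 3 2 k = -2 * W 9 0 k + W 9 1 k + W 9 2 k := by
    intro k
    have := hE 11 k
    simp [Fin.sum_univ_three, pL, pSrc, pTgt] at this
    linarith
  have E12 : W 5 2 = W 4 2 := by
    funext k
    have := hE 12 k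
    simp [Fin.sum_univ_three, pL, pSrc, pTgt] at this
    linarith
  have E13 : W 7 1 = W 6 1 := by
    funext k
    have := hE 13 k
    simp [Fin.sum_univ_three, pL, pSrc, pTgt] at this
    linarith
  have E14 : W 9 0 = W 8 0 := by
    funext k
    have := hE 14 k
    simp [Fin.sum_univ_three, pL, pSrc, pTgt] at this
    linarith
  have q0 := quad 1 1 1 (W 0 0) (W 0 1) (W 0 2) (W 8 0) (W 6 1) (W 4 2) Γ (hG _ _ _) (hG _ _ _)
    (hG _ _ _) (hG _ _ _) (hG _ _ _) (hG _ _ _) (hG _ _ _) (hG _ _ _) (hG _ _ _) rfl rfl rfl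
    (by
      have h : (2 * 1 : ℤ) • W 0 0 + (1 : ℤ) • W 0 1 + (1 : ℤ) • W 0 2 =
          (2 : ℤ) • W 8 0 + W 8 1 + W 8 2 := by
        funext k
        simpa using E2 k
      rw [h, add_dotProduct, add_dotProduct, smul_dotProduct, hG, hG, hG, hΓ 1 0, hΓ 2 0]
      simp)
    (by
      have h : (1 : ℤ) • W 0 0 + (2 * 1 : ℤ) • W 0 1 + (1 : ℤ) • W 0 2 =
          W 6 0 + (2 : ℤ) • W 6 1 + W 6 2 := by
        funext k
        simpa using E1 k
      rw [h, add_dotProduct, add_dotProduct, smul_dotProduct, hG, hG, hG, hΓ 2 1]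
      simp)
    (by
      have h : (1 : ℤ) • W 0 0 + (1 : ℤ) • W 0 1 + (2 * 1 : ℤ) • W 0 2 =
          W 4 0 + W 4 1 + (2 : ℤ) • W 4 2 := by
        funext k
        simpa using E0 k
      rw [h, add_dotProduct, add_dotProduct, smul_dotProduct, hG, hG, hG]
      simp)
  have q1 := quad 1 1 (-1) (W 1 0) (W 1 1) (W 1 2) (W 8 0) (W 6 1) (W 4 2) Γ (hG _ _ _) (hG _ _ _)
    (hG _ _ _) (hG _ _ _) (hG _ _ _) (hG _ _ _) (hG _ _ _) (hG _ _ _) (hG _ _ _) rfl rfl rfl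
    (by
      have h : (2 * 1 : ℤ) • W 1 0 + (1 : ℤ) • W 1 1 + (-1 : ℤ) • W 1 2 =
          (2 : ℤ) • W 9 0 + W 9 1 - W 9 2 := by
        funext k
        have := E5 k
        simp
        linarith
      rw [h, sub_dotProduct, add_dotProduct, smul_dotProduct, ← E14, hG, hG, hG, hΓ 1 0, hΓ 2 0]
      simp
      ring)
    (by
      have h : (1 : ℤ) • W 1 0 + (2 * 1 : ℤ) • W 1 1 + (-1 : ℤ) • W 1 2 =
          W 6 0 + (2 : ℤ) • W 6 1 - W 6 2 := by
        funext k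
        have := E4 k
        simp
        linarith
      rw [h, sub_dotProduct, add_dotProduct, smul_dotProduct, hG, hG, hG, hΓ 2 1]
      simp
      ring)
    (by
      have h : (1 : ℤ) • W 1 0 + (1 : ℤ) • W 1 1 + (2 * -1 : ℤ) • W 1 2 =
          W 5 0 + W 5 1 - (2 : ℤ) • W 5 2 := by
        funext k
        have := E3 k
        simp
        linarith
      rw [h, sub_dotProduct, add_dotProduct, smul_dotProduct, ← E12, hG, hG, hG]
      simp
      ring)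
  have q2 := quad 1 (-1) 1 (W 2 0) (W 2 1) (W 2 2) (W 8 0) (W 6 1) (W 4 2) Γ (hG _ _ _) (hG _ _ _)
    (hG _ _ _) (hG _ _ _) (hG _ _ _) (hG _ _ _) (hG _ _ _) (hG _ _ _) (hG _ _ _) rfl rfl rfl
    (by
      have h : (2 * 1 : ℤ) • W 2 0 + (-1 : ℤ) • W 2 1 + (1 : ℤ) • W 2 2 =
          (2 : ℤ) • W 8 0 - W 8 1 + W 8 2 := by
        funext k
        have := E8 k
        simp
        linarith
      rw [h, add_dotProduct, sub_dotProduct, smul_dotProduct, hG, hG, hG, hΓ 1 0, hΓ 2 0]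
      simp
      ring)
    (by
      have h : (1 : ℤ) • W 2 0 + (2 * -1 : ℤ) • W 2 1 + (1 : ℤ) • W 2 2 =
          W 7 0 - (2 : ℤ) • W 7 1 + W 7 2 := by
        funext k
        have := E7 k
        simp
        linarith
      rw [h, add_dotProduct, sub_dotProduct, smul_dotProduct, ← E13, hG, hG, hG, hΓ 2 1]
      simp
      ring)
    (by
      have h : (1 : ℤ) • W 2 0 + (-1 : ℤ) • W 2 1 + (2 * 1 : ℤ) • W 2 2 =
          W 5 0 - W 5 1 + (2 : ℤ) • W 5 2 := by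
        funext k
        have := E6 k
        simp
        linarith
      rw [h, add_dotProduct, sub_dotProduct, smul_dotProduct, ← E12, hG, hG, hG]
      simp
      ring)
  have q3 := quad (-1) 1 1 (W 3 0) (W 3 1) (W 3 2) (W 8 0) (W 6 1) (W 4 2) Γ (hG _ _ _) (hG _ _ _)
    (hG _ _ _) (hG _ _ _) (hG _ _ _) (hG _ _ _) (hG _ _ _) (hG _ _ _) (hG _ _ _) rfl rfl rfl
    (by
      have h : (2 * -1 : ℤ) • W 3 0 + (1 : ℤ) • W 3 1 + (1 : ℤ) • W 3 2 =
          W 9 1 + W 9 2 - (2 : ℤ) • W 9 0 := by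
        funext k
        have := E11 k
        simp
        linarith
      rw [h, sub_dotProduct, add_dotProduct, smul_dotProduct, ← E14, hG, hG, hG, hΓ 1 0, hΓ 2 0]
      simp
      ring)
    (by
      have h : (-1 : ℤ) • W 3 0 + (2 * 1 : ℤ) • W 3 1 + (1 : ℤ) • W 3 2 =
          (2 : ℤ) • W 7 1 + W 7 2 - W 7 0 := by
        funext k
        have := E10 k
        simp
        linarith
      rw [h, sub_dotProduct, add_dotProduct, smul_dotProduct, ← E13, hG, hG, hG, hΓ 2 1]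
      simp
      ring)
    (by
      have h : (-1 : ℤ) • W 3 0 + (1 : ℤ) • W 3 1 + (2 * 1 : ℤ) • W 3 2 =
          W 4 1 + (2 : ℤ) • W 4 2 - W 4 0 := by
        funext k
        have := E9 k
        simp
        linarith
      rw [h, sub_dotProduct, add_dotProduct, smul_dotProduct, hG, hG, hG]
      simp
      ring)
  have nn : ∀ w : Fin m → ℤ, 0 ≤ w ⬝ᵥ w := fun w => sum_nonneg fun k _ => mul_self_nonneg _
  have n0 := nn ((1 : ℤ) • (W 0 0 - W 8 0) + (1 : ℤ) • (W 0 1 - W 6 1) + (1 : ℤ) • (W 0 2 - W 4 2))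
  have n1 := nn ((1 : ℤ) • (W 1 0 - W 8 0) + (1 : ℤ) • (W 1 1 - W 6 1) + (-1 : ℤ) • (W 1 2 - W 4 2))
  have n2 := nn ((1 : ℤ) • (W 2 0 - W 8 0) + (-1 : ℤ) • (W 2 1 - W 6 1) + (1 : ℤ) • (W 2 2 - W 4 2))
  have n3 := nn ((-1 : ℤ) • (W 3 0 - W 8 0) + (1 : ℤ) • (W 3 1 - W 6 1) + (1 : ℤ) • (W 3 2 - W 4 2))
  have a00 := nn (W 0 0 - W 8 0)
  have a01 := nn (W 0 1 - W 6 1)
  have a02 := nn (W 0 2 - W 4 2)
  have a10 := nn (W 1 0 - W 8 0)
  have a11 := nn (W 1 1 - W 6 1)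
  have a12 := nn (W 1 2 - W 4 2)
  have a20 := nn (W 2 0 - W 8 0)
  have a21 := nn (W 2 1 - W 6 1)
  have a22 := nn (W 2 2 - W 4 2)
  have a30 := nn (W 3 0 - W 8 0)
  have a31 := nn (W 3 1 - W 6 1)
  have a32 := nn (W 3 2 - W 4 2)
  have r00 : W 0 0 = W 8 0 := eq_of_dot (by linarith)
  have r01 : W 0 1 = W 6 1 := eq_of_dot (by linarith)
  have r02 : W 0 2 = W 4 2 := eq_of_dot (by linarith)
  have r10 : W 1 0 = W 8 0 := eq_of_dot (by linarith)
  have r11 : W 1 1 = W 6 1 := eq_of_dot (by linarith)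
  have r12 : W 1 2 = W 4 2 := eq_of_dot (by linarith)
  have r20 : W 2 0 = W 8 0 := eq_of_dot (by linarith)
  have r21 : W 2 1 = W 6 1 := eq_of_dot (by linarith)
  have r22 : W 2 2 = W 4 2 := eq_of_dot (by linarith)
  have r30 : W 3 0 = W 8 0 := eq_of_dot (by linarith)
  have r31 : W 3 1 = W 6 1 := eq_of_dot (by linarith)
  have r32 : W 3 2 = W 4 2 := eq_of_dot (by linarith)
  rw [r00, r01, r02] at E0 E1 E2
  rw [r10, r11, r12] at E3 E4 E5
  rw [r20, r21, r22] at E6 E7 E8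
  rw [r30, r31, r32] at E9 E10 E11
  rw [E12] at E3 E6
  rw [E13] at E7 E10
  rw [E14] at E5 E11
  have all : ∀ v, W v = ![W 8 0, W 6 1, W 4 2] := by
    have mk : ∀ v, W v 0 = W 8 0 → W v 1 = W 6 1 → W v 2 = W 4 2 →
        W v = ![W 8 0, W 6 1, W 4 2] := by
      intro v h0 h1 h2
      funext i
      fin_cases i
      · exact h0
      · exact h1
      · exact h2
    intro v
    fin_cases v
    · exact mk 0 r00 r01 r02
    · exact mk 1 r10 r11 r12
    · exact mk 2 r20 r21 r22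
    · exact mk 3 r30 r31 r32
    · exact mk 4 (by funext k; have := E0 k; have := E9 k; linarith)
        (by funext k; have := E0 k; have := E9 k; linarith) rfl
    · exact mk 5 (by funext k; have := E3 k; have := E6 k; linarith)
        (by funext k; have := E3 k; have := E6 k; linarith) E12
    · exact mk 6 (by funext k; have := E1 k; have := E4 k; linarith) rfl
        (by funext k; have := E1 k; have := E4 k; linarith)
    · exact mk 7 (by funext k; have := E7 k; have := E10 k; linarith) E13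
        (by funext k; have := E7 k; have := E10 k; linarith)
    · exact mk 8 rfl (by funext k; have := E2 k; have := E8 k; linarith)
        (by funext k; have := E2 k; have := E8 k; linarith)
    · exact mk 9 E14 (by funext k; have := E5 k; have := E11 k; linarith)
        (by funext k; have := E5 k; have := E11 k; linarith)
  intro u v
  rw [all u, all v]

end Pool.Agent.X243.EqTest
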