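import Pool.Agent.X243.EqTest.Petersen

/-! The cost of equality testing on the Petersen graph, and its two-edge-connected subgraphs. -/

open Finset Filter Topology

namespace Pool.Agent.X243.EqTest

lemma petersen_conn : petersen.Connected := by
  have h : ∀ v, petersen.Reachable 0 v := by
    have a : ∀ {u v}, petersen.Reachable 0 u → petersen.Adj u v → petersen.Reachable 0 v :=
      fun h1 h2 => h1.trans h2.reachable
    have h0 : petersen.Reachable 0 0 := SimpleGraph.Reachable.refl 0
    have h4 := a (v := 4) h0 (by decide)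
    have h6 := a (v := 6) h0 (by decide)
    have h8 := a (v := 8) h0 (by decide)
    have h3 := a (v := 3) h4 (by decide)
    have h5 := a (v := 5) h4 (by decide)
    have h1 := a (v := 1) h6 (by decide)
    have h7 := a (v := 7) h6 (by decide)
    have h2 := a (v := 2) h8 (by decide)
    have h9 := a (v := 9) h8 (by decide)
    intro v
    fin_cases v
    · exact h0
    · exact h1
    · exact h2
    · exact h3
    · exact h4
    · exact h5
    · exact h6
    · exact h7
    · exact h8
    · exact h9
  exact ⟨fun u v => (h u).symm.trans (h v)⟩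

open Classical in
/-- The cost of equality testing on the Petersen graph is `5` bits per input bit. -/
theorem petersen_limit :
    Tendsto (fun n : ℕ => (eqCost petersen n : ℝ) / n) atTop (𝓝 5) := by
  let g : Finset (Fin 10) → ℝ := fun S => ∑ v, if S = {v} then 1 / 2 else 0
  have hsep : ∀ w u v : Fin 10, u ≠ v → (Sep {w} u v ↔ (w = u ∨ w = v)) := by
    intro w u v huv
    unfold Sep
    simp only [mem_singleton]
    constructor
    · rintro (⟨h, -⟩ | ⟨-, h⟩)
      · exact Or.inl h.symm
      · exact Or.inr h.symm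
    · rintro (h | h)
      · exact Or.inl ⟨h.symm, fun h2 => huv (by rw [h2, h])⟩
      · exact Or.inr ⟨fun h2 => huv (by rw [h2, h]), h.symm⟩
  have h := eqCost_limit petersen_conn pSrc pTgt (by intro e; exact ⟨e, Or.inl ⟨rfl, rfl⟩⟩)
    (by norm_num : 0 < 3) pL petersen_rigid g ?_ ?_ ?_ ?_
  · norm_num at h
    exact h
  · intro S
    apply sum_nonneg
    intro v _
    split_ifs <;> norm_num
  · intro S hS
    obtain ⟨v, hv⟩ : ∃ v, S = {v} := by
      by_contra hcon
      push Not at hcon
      apply hS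
      apply sum_eq_zero
      intro v _
      rw [if_neg (hcon v)]
    rw [hv]
    refine ⟨singleton_nonempty v, v + 1, ?_⟩
    rw [mem_singleton]
    exact (by decide : ∀ v : Fin 10, ¬ v + 1 = v) v
  · intro u v huv
    have h1 : ∀ S : Finset (Fin 10), (if Sep S u v then g S else 0) =
        ∑ w, if S = {w} then (if w = u ∨ w = v then 1 / 2 else 0) else 0 := by
      intro S
      split_ifs with h2
      · apply sum_congr rfl
        intro w _
        split_ifs with h3 h4
        · rfl
        · rw [h3, hsep w u v huv.ne] at h2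
          exact absurd h2 h4
        · rfl
      · symm
        apply sum_eq_zero
        intro w _
        split_ifs with h3 h4
        · exfalso
          rw [h3, hsep w u v huv.ne] at h2
          exact h2 h4
        · rfl
        · rfl
    rw [sum_congr rfl (fun S _ => h1 S), sum_comm]
    simp only [sum_ite_eq', mem_univ, if_true]
    rw [← sum_filter, sum_const, nsmul_eq_mul]
    have h5 : (univ.filter (fun w => w = u ∨ w = v)).card ≤ 2 := by
      have h6 : univ.filter (fun w => w = u ∨ w = v) ⊆ {u, v} := by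
        intro w hw
        simpa using hw
      exact (card_le_card h6).trans card_le_two
    have h7 : ((univ.filter (fun w => w = u ∨ w = v)).card : ℝ) ≤ 2 := by exact_mod_cast h5
    linarith
  · simp only [g]
    rw [sum_comm]
    simp
    norm_num

/-! ## Cuts of the Petersen graph -/

lemma or3 {a b c : ℕ} (h : a + b + c = 2) : a = 0 ∨ b = 0 ∨ c = 0 := by omega

lemma or2 {a b c : ℕ} (h : a + b + c = 2) (hc : c = 1) : a = 0 ∨ b = 0 ∨ False := by omega

/-- the linear arithmetic of the cuts of the Petersen graph -/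
lemma arith (m0 m1 m2 m3 m4 m5 m6 m7 m8 m9 m10 m11 m12 m13 m14 : ℕ)
    (d0 : 2 ≤ m0 + m1 + m2)
    (d1 : 2 ≤ m3 + m4 + m5)
    (d2 : 2 ≤ m6 + m7 + m8)
    (d3 : 2 ≤ m9 + m10 + m11)
    (d4 : 2 ≤ m0 + m9 + m12)
    (d5 : 2 ≤ m3 + m6 + m12)
    (d6 : 2 ≤ m1 + m4 + m13)
    (d7 : 2 ≤ m7 + m10 + m13)
    (d8 : 2 ≤ m2 + m8 + m14)
    (d9 : 2 ≤ m5 + m11 + m14)
    (b0 : 2 ≤ m1 + m2 + m9 + m12)
    (b1 : 2 ≤ m0 + m2 + m4 + m13)
    (b2 : 2 ≤ m0 + m1 + m8 + m14)
    (b3 : 2 ≤ m4 + m5 + m6 + m12)
    (b4 : 2 ≤ m1 + m3 + m5 + m13)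
    (b5 : 2 ≤ m3 + m4 + m11 + m14)
    (b6 : 2 ≤ m3 + m7 + m8 + m12)
    (b7 : 2 ≤ m6 + m8 + m10 + m13)
    (b8 : 2 ≤ m2 + m6 + m7 + m14)
    (b9 : 2 ≤ m0 + m10 + m11 + m12)
    (b10 : 2 ≤ m7 + m9 + m11 + m13)
    (b11 : 2 ≤ m5 + m9 + m10 + m14)
    (b12 : 2 ≤ m0 + m3 + m6 + m9)
    (b13 : 2 ≤ m1 + m4 + m7 + m10)
    (b14 : 2 ≤ m2 + m5 + m8 + m11)
    (k0 : 2 ≤ m2 + m5 + m6 + m9 + m13)
    (k1 : 2 ≤ m0 + m3 + m8 + m11 + m13)
    (k2 : 2 ≤ m1 + m3 + m7 + m9 + m14)
    (k3 : 2 ≤ m0 + m4 + m6 + m10 + m14)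
    (k4 : 2 ≤ m2 + m4 + m7 + m11 + m12)
    (k5 : 2 ≤ m1 + m5 + m8 + m10 + m12)
    : 11 ≤ m0 + m1 + m2 + m3 + m4 + m5 + m6 + m7 + m8 + m9 + m10 + m11 + m12 + m13 + m14 := by
  by_contra hcon
  push Not at hcon
  have hcon' : m0 + m1 + m2 + m3 + m4 + m5 + m6 + m7 + m8 + m9 + m10 + m11 + m12 + m13 + m14 ≤ 10 := Nat.lt_succ_iff.1 hcon
  have D0 : m0 + m1 + m2 = 2 := by linarith only [hcon', d0, d1, d2, d3, d4, d5, d6, d7, d8, d9]
  have D1 : m3 + m4 + m5 = 2 := by linarith only [hcon', d0, d1, d2, d3, d4, d5, d6, d7, d8, d9]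
  have D2 : m6 + m7 + m8 = 2 := by linarith only [hcon', d0, d1, d2, d3, d4, d5, d6, d7, d8, d9]
  have D3 : m9 + m10 + m11 = 2 := by linarith only [hcon', d0, d1, d2, d3, d4, d5, d6, d7, d8, d9]
  have D4 : m0 + m9 + m12 = 2 := by linarith only [hcon', d0, d1, d2, d3, d4, d5, d6, d7, d8, d9]
  have D5 : m3 + m6 + m12 = 2 := by linarith only [hcon', d0, d1, d2, d3, d4, d5, d6, d7, d8, d9]
  have D6 : m1 + m4 + m13 = 2 := by linarith only [hcon', d0, d1, d2, d3, d4, d5, d6, d7, d8, d9]
  have D7 : m7 + m10 + m13 = 2 := by linarith only [hcon', d0, d1, d2, d3, d4, d5, d6, d7, d8, d9]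
  have D8 : m2 + m8 + m14 = 2 := by linarith only [hcon', d0, d1, d2, d3, d4, d5, d6, d7, d8, d9]
  have D9 : m5 + m11 + m14 = 2 := by linarith only [hcon', d0, d1, d2, d3, d4, d5, d6, d7, d8, d9]
  have B0 : m0 ≤ 1 := by linarith only [b0, D0, D4]
  have B1 : m1 ≤ 1 := by linarith only [b1, D0, D6]
  have B2 : m2 ≤ 1 := by linarith only [b2, D0, D8]
  have B3 : m3 ≤ 1 := by linarith only [b3, D1, D5]
  have B4 : m4 ≤ 1 := by linarith only [b4, D1, D6]
  have B5 : m5 ≤ 1 := by linarith only [b5, D1, D9]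
  have B6 : m6 ≤ 1 := by linarith only [b6, D2, D5]
  have B7 : m7 ≤ 1 := by linarith only [b7, D2, D7]
  have B8 : m8 ≤ 1 := by linarith only [b8, D2, D8]
  have B9 : m9 ≤ 1 := by linarith only [b9, D3, D4]
  have B10 : m10 ≤ 1 := by linarith only [b10, D3, D7]
  have B11 : m11 ≤ 1 := by linarith only [b11, D3, D9]
  have B12 : m12 ≤ 1 := by linarith only [b12, D4, D5]
  have B13 : m13 ≤ 1 := by linarith only [b13, D6, D7]
  have B14 : m14 ≤ 1 := by linarith only [b14, D8, D9]
  rcases or3 D0 with z0 | z1 | z2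
  · have o1 : m1 = 1 := by linarith only [D0, z0, B1, B2]
    have o2 : m2 = 1 := by linarith only [D0, z0, B2, B1]
    have o9 : m9 = 1 := by linarith only [D4, z0, B9, B12]
    have o12 : m12 = 1 := by linarith only [D4, z0, B12, B9]
    rcases or2 (a := m10) (b := m11) (c := m9) (by linarith only [D3]) o9 with z10 | z11 | ff
    · have o11 : m11 = 1 := by linarith only [D3, z10, B11, B9]
      have o7 : m7 = 1 := by linarith only [D7, z10, B7, B13]
      have o13 : m13 = 1 := by linarith only [D7, z10, B13, B7]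
      have z4 : m4 = 0 := by linarith only [D6, o1, o13]
      have o3 : m3 = 1 := by linarith only [D1, z4, B3, B5]
      have o5 : m5 = 1 := by linarith only [D1, z4, B5, B3]
      have z6 : m6 = 0 := by linarith only [D5, o3, o12]
      have o8 : m8 = 1 := by linarith only [D2, z6, B8, B7]
      have z14 : m14 = 0 := by linarith only [D8, o2, o8]
      linarith only [k3, z0, z4, z6, z10, z14]
    · have o10 : m10 = 1 := by linarith only [D3, z11, B10, B9]
      have o5 : m5 = 1 := by linarith only [D9, z11, B5, B14]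
      have o14 : m14 = 1 := by linarith only [D9, z11, B14, B5]
      have z8 : m8 = 0 := by linarith only [D8, o2, o14]
      have o6 : m6 = 1 := by linarith only [D2, z8, B6, B7]
      have o7 : m7 = 1 := by linarith only [D2, z8, B7, B6]
      have z3 : m3 = 0 := by linarith only [D5, o6, o12]
      have o4 : m4 = 1 := by linarith only [D1, z3, B4, B5]
      have z13 : m13 = 0 := by linarith only [D6, o1, o4]
      linarith only [k1, z0, z3, z8, z11, z13]
    · exact ff
  · have o0 : m0 = 1 := by linarith only [D0, z1, B0, B2]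
    have o2 : m2 = 1 := by linarith only [D0, z1, B2, B0]
    have o4 : m4 = 1 := by linarith only [D6, z1, B4, B13]
    have o13 : m13 = 1 := by linarith only [D6, z1, B13, B4]
    rcases or2 (a := m3) (b := m5) (c := m4) (by linarith only [D1]) o4 with z3 | z5 | ff
    · have o5 : m5 = 1 := by linarith only [D1, z3, B5, B4]
      have o6 : m6 = 1 := by linarith only [D5, z3, B6, B12]
      have o12 : m12 = 1 := by linarith only [D5, z3, B12, B6]
      have z9 : m9 = 0 := by linarith only [D4, o0, o12]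
      have o10 : m10 = 1 := by linarith only [D3, z9, B10, B11]
      have o11 : m11 = 1 := by linarith only [D3, z9, B11, B10]
      have z7 : m7 = 0 := by linarith only [D7, o10, o13]
      have o8 : m8 = 1 := by linarith only [D2, z7, B8, B6]
      have z14 : m14 = 0 := by linarith only [D8, o2, o8]
      linarith only [k2, z1, z3, z7, z9, z14]
    · have o3 : m3 = 1 := by linarith only [D1, z5, B3, B4]
      have o11 : m11 = 1 := by linarith only [D9, z5, B11, B14]
      have o14 : m14 = 1 := by linarith only [D9, z5, B14, B11]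
      have z8 : m8 = 0 := by linarith only [D8, o2, o14]
      have o6 : m6 = 1 := by linarith only [D2, z8, B6, B7]
      have o7 : m7 = 1 := by linarith only [D2, z8, B7, B6]
      have z12 : m12 = 0 := by linarith only [D5, o3, o6]
      have o9 : m9 = 1 := by linarith only [D4, z12, B9, B0]
      have z10 : m10 = 0 := by linarith only [D3, o9, o11]
      linarith only [k5, z1, z5, z8, z10, z12]
    · exact ff
  · have o0 : m0 = 1 := by linarith only [D0, z2, B0, B1]
    have o1 : m1 = 1 := by linarith only [D0, z2, B1, B0]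
    have o8 : m8 = 1 := by linarith only [D8, z2, B8, B14]
    have o14 : m14 = 1 := by linarith only [D8, z2, B14, B8]
    rcases or2 (a := m6) (b := m7) (c := m8) (by linarith only [D2]) o8 with z6 | z7 | ff
    · have o7 : m7 = 1 := by linarith only [D2, z6, B7, B8]
      have o3 : m3 = 1 := by linarith only [D5, z6, B3, B12]
      have o12 : m12 = 1 := by linarith only [D5, z6, B12, B3]
      have z9 : m9 = 0 := by linarith only [D4, o0, o12]
      have o10 : m10 = 1 := by linarith only [D3, z9, B10, B11]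
      have o11 : m11 = 1 := by linarith only [D3, z9, B11, B10]
      have z13 : m13 = 0 := by linarith only [D7, o7, o10]
      have o4 : m4 = 1 := by linarith only [D6, z13, B4, B1]
      have z5 : m5 = 0 := by linarith only [D1, o3, o4]
      linarith only [k0, z2, z5, z6, z9, z13]
    · have o6 : m6 = 1 := by linarith only [D2, z7, B6, B8]
      have o10 : m10 = 1 := by linarith only [D7, z7, B10, B13]
      have o13 : m13 = 1 := by linarith only [D7, z7, B13, B10]
      have z4 : m4 = 0 := by linarith only [D6, o1, o13]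
      have o3 : m3 = 1 := by linarith only [D1, z4, B3, B5]
      have o5 : m5 = 1 := by linarith only [D1, z4, B5, B3]
      have z12 : m12 = 0 := by linarith only [D5, o3, o6]
      have o9 : m9 = 1 := by linarith only [D4, z12, B9, B0]
      have z11 : m11 = 0 := by linarith only [D3, o9, o10]
      linarith only [k4, z2, z4, z7, z11, z12]
    · exact ff

section cuts

variable (μ : Fin 10 → Fin 10 → ℕ)

lemma mu_eq (hsymm : ∀ u v, μ u v = μ v u) (hadj : ∀ u v, ¬ petersen.Adj u v → μ u v = 0)
    (u v : Fin 10) :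
    μ u v = ∑ e, ((if pSrc e = u ∧ pTgt e = v then μ (pSrc e) (pTgt e) else 0) +
      (if pSrc e = v ∧ pTgt e = u then μ (pSrc e) (pTgt e) else 0)) := by
  by_cases h : petersen.Adj u v
  · have h0 : ∀ e0 e : Fin 15, ((pSrc e = pSrc e0 ∧ pTgt e = pTgt e0) ↔ e = e0) ∧
        ¬ (pSrc e = pTgt e0 ∧ pTgt e = pSrc e0) := by decide
    obtain ⟨e0, ⟨rfl, rfl⟩ | ⟨rfl, rfl⟩⟩ := h
    · rw [sum_eq_single e0]
      · rw [if_pos ⟨rfl, rfl⟩, if_neg (h0 e0 e0).2, add_zero]
      · intro e _ he
        rw [if_neg (fun h1 => he ((h0 e0 e).1.1 h1)), if_neg (h0 e0 e).2, add_zero]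
      · intro h1
        exact absurd (mem_univ _) h1
    · rw [sum_eq_single e0]
      · rw [if_pos (⟨rfl, rfl⟩ : pSrc e0 = pSrc e0 ∧ pTgt e0 = pTgt e0), if_neg (h0 e0 e0).2,
          zero_add, hsymm]
      · intro e _ he
        rw [if_neg (fun h1 : pSrc e = pSrc e0 ∧ pTgt e = pTgt e0 => he ((h0 e0 e).1.1 h1)),
          if_neg (h0 e0 e).2, add_zero]
      · intro h1
        exact absurd (mem_univ _) h1
  · rw [hadj u v h]
    symm
    apply sum_eq_zero
    intro e _
    rw [if_neg (fun h1 => h ⟨e, Or.inl h1⟩), if_neg (fun h1 => h ⟨e, Or.inr h1⟩), add_zero]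

lemma cut_sum (hsymm : ∀ u v, μ u v = μ v u) (hadj : ∀ u v, ¬ petersen.Adj u v → μ u v = 0)
    (A B : Finset (Fin 10)) :
    ∑ u ∈ A, ∑ v ∈ B, μ u v = ∑ e, ((if pSrc e ∈ A ∧ pTgt e ∈ B then μ (pSrc e) (pTgt e) else 0) +
      (if pSrc e ∈ B ∧ pTgt e ∈ A then μ (pSrc e) (pTgt e) else 0)) := by
  rw [sum_congr rfl (fun u _ => sum_congr rfl (fun v _ => mu_eq μ hsymm hadj u v))]
  rw [sum_congr rfl (fun u _ => sum_comm), sum_comm]
  apply sum_congr rfl
  intro e _
  simp only [sum_add_distrib]
  congr 1
  · by_cases h1 : pSrc e ∈ A <;> by_cases h2 : pTgt e ∈ B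
    · rw [if_pos ⟨h1, h2⟩, sum_eq_single (pSrc e), sum_eq_single (pTgt e), if_pos ⟨rfl, rfl⟩]
      · intro v _ hv
        rw [if_neg (fun h3 => hv h3.2.symm)]
      · intro h3
        exact absurd h2 h3
      · intro u _ hu
        apply sum_eq_zero
        intro v _
        rw [if_neg (fun h3 => hu h3.1.symm)]
      · intro h3
        exact absurd h1 h3
    · rw [if_neg (fun h3 => h2 h3.2)]
      apply sum_eq_zero
      intro u _
      apply sum_eq_zero
      intro v hv
      rw [if_neg]
      rintro ⟨-, rfl⟩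
      exact h2 hv
    · rw [if_neg (fun h3 => h1 h3.1)]
      apply sum_eq_zero
      intro u hu
      apply sum_eq_zero
      intro v hv
      rw [if_neg]
      rintro ⟨rfl, -⟩
      exact h1 hu
    · rw [if_neg (fun h3 => h1 h3.1)]
      apply sum_eq_zero
      intro u hu
      apply sum_eq_zero
      intro v hv
      rw [if_neg]
      rintro ⟨rfl, -⟩
      exact h1 hu
  · by_cases h1 : pSrc e ∈ B <;> by_cases h2 : pTgt e ∈ A
    · rw [if_pos ⟨h1, h2⟩, sum_eq_single (pTgt e), sum_eq_single (pSrc e), if_pos ⟨rfl, rfl⟩]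
      · intro v _ hv
        rw [if_neg (fun h3 => hv h3.1.symm)]
      · intro h3
        exact absurd h1 h3
      · intro u _ hu
        apply sum_eq_zero
        intro v _
        rw [if_neg (fun h3 => hu h3.2.symm)]
      · intro h3
        exact absurd h2 h3
    · rw [if_neg (fun h3 => h2 h3.2)]
      apply sum_eq_zero
      intro u hu
      apply sum_eq_zero
      intro v hv
      rw [if_neg]
      rintro ⟨-, rfl⟩
      exact h2 hu
    · rw [if_neg (fun h3 => h1 h3.1)]
      apply sum_eq_zero
      intro u hu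
      apply sum_eq_zero
      intro v hv
      rw [if_neg]
      rintro ⟨rfl, -⟩
      exact h1 hv
    · rw [if_neg (fun h3 => h1 h3.1)]
      apply sum_eq_zero
      intro u hu
      apply sum_eq_zero
      intro v hv
      rw [if_neg]
      rintro ⟨rfl, -⟩
      exact h1 hv

/-- a spanning two-edge-connected multigraph inside the Petersen graph has at least 11 edges -/
lemma total_ge (hsymm : ∀ u v, μ u v = μ v u) (hadj : ∀ u v, ¬ petersen.Adj u v → μ u v = 0)
    (hcut : ∀ S : Finset (Fin 10), S.Nonempty → S ≠ univ → 2 ≤ ∑ u ∈ S, ∑ v ∈ Sᶜ, μ u v) :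
    22 ≤ ∑ u, ∑ v, μ u v := by
  have hc : ∀ S : Finset (Fin 10), S.Nonempty → S ≠ univ → 2 ≤
      ∑ e, ((if pSrc e ∈ S ∧ pTgt e ∈ Sᶜ then μ (pSrc e) (pTgt e) else 0) +
      (if pSrc e ∈ Sᶜ ∧ pTgt e ∈ S then μ (pSrc e) (pTgt e) else 0)) := by
    intro S h1 h2
    rw [← cut_sum μ hsymm hadj]
    exact hcut S h1 h2
  rw [cut_sum μ hsymm hadj]
  have c0 := hc {0} (by decide) (by decide)
  have c1 := hc {1} (by decide) (by decide)
  have c2 := hc {2} (by decide) (by decide)
  have c3 := hc {3} (by decide) (by decide)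
  have c4 := hc {4} (by decide) (by decide)
  have c5 := hc {5} (by decide) (by decide)
  have c6 := hc {6} (by decide) (by decide)
  have c7 := hc {7} (by decide) (by decide)
  have c8 := hc {8} (by decide) (by decide)
  have c9 := hc {9} (by decide) (by decide)
  have c10 := hc {0, 4} (by decide) (by decide)
  have c11 := hc {0, 6} (by decide) (by decide)
  have c12 := hc {0, 8} (by decide) (by decide)
  have c13 := hc {1, 5} (by decide) (by decide)
  have c14 := hc {1, 6} (by decide) (by decide)
  have c15 := hc {1, 9} (by decide) (by decide)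
  have c16 := hc {2, 5} (by decide) (by decide)
  have c17 := hc {2, 7} (by decide) (by decide)
  have c18 := hc {2, 8} (by decide) (by decide)
  have c19 := hc {3, 4} (by decide) (by decide)
  have c20 := hc {3, 7} (by decide) (by decide)
  have c21 := hc {3, 9} (by decide) (by decide)
  have c22 := hc {4, 5} (by decide) (by decide)
  have c23 := hc {6, 7} (by decide) (by decide)
  have c24 := hc {8, 9} (by decide) (by decide)
  have c25 := hc {0, 1, 4, 5, 6} (by decide) (by decide)
  have c26 := hc {0, 1, 6, 8, 9} (by decide) (by decide)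
  have c27 := hc {0, 2, 4, 5, 8} (by decide) (by decide)
  have c28 := hc {0, 2, 6, 7, 8} (by decide) (by decide)
  have c29 := hc {0, 3, 4, 6, 7} (by decide) (by decide)
  have c30 := hc {0, 3, 4, 8, 9} (by decide) (by decide)
  simp [Fin.sum_univ_succ, pSrc, pTgt] at c0 c1 c2 c3 c4 c5 c6 c7 c8 c9 c10 c11 c12 c13 c14 c15 c16 c17 c18 c19 c20 c21 c22 c23 c24 c25 c26 c27 c28 c29 c30 ⊢
  have key := arith (μ 0 4) (μ 0 6) (μ 0 8) (μ 1 5) (μ 1 6) (μ 1 9) (μ 2 5) (μ 2 7) (μ 2 8) (μ 3 4) (μ 3 7) (μ 3 9) (μ 4 5) (μ 6 7) (μ 8 9)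
    (by linarith only [c0]) (by linarith only [c1]) (by linarith only [c2]) (by linarith only [c3]) (by linarith only [c4]) (by linarith only [c5]) (by linarith only [c6]) (by linarith only [c7]) (by linarith only [c8]) (by linarith only [c9]) (by linarith only [c10]) (by linarith only [c11]) (by linarith only [c12]) (by linarith only [c13]) (by linarith only [c14]) (by linarith only [c15]) (by linarith only [c16]) (by linarith only [c17]) (by linarith only [c18]) (by linarith only [c19]) (by linarith only [c20]) (by linarith only [c21]) (by linarith only [c22]) (by linarith only [c23]) (by linarith only [c24]) (by linarith only [c25]) (by linarith only [c26]) (by linarith only [c27]) (by linarith only [c28]) (by linarith only [c29]) (by linarith only [c30])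
  linarith only [key]

end cuts

end Pool.Agent.X243.EqTest
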