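import Pool.Agent.X243.EqTest.Model

/-! From a one-round family of messages to a protocol in which everybody learns the answer. -/

open Finset

namespace Pool.Agent.X243.EqTest

set_option linter.unusedSectionVars false

variable {V : Type*} [Fintype V] [DecidableEq V] {n : ℕ} {G : SimpleGraph V} {E : ℕ}

section

variable (G) (src tgt : Fin E → V) (mess : Fin E → (Fin n → Bool) → List Bool)

open Classical in
/-- nothing suspicious seen before round `r` -/
noncomputable def ok (u : V) (r : ℕ) (a : Fin n → Bool) (h : ℕ → V → List Bool) : Bool :=
  decide ((∀ e : Fin E, tgt e = u → h e (src e) = mess e a) ∧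
    ∀ s, E ≤ s → s < r → ∀ w, G.Adj u w → h s w = [true])

open Classical in
/-- the protocol: the messages first, then `|V|` rounds of flooding -/
noncomputable def proto : Protocol V n where
  rounds := E + Fintype.card V
  send r u v a h :=
    if hr : r < E then (if u = src ⟨r, hr⟩ ∧ v = tgt ⟨r, hr⟩ then mess ⟨r, hr⟩ a else [])
    else if G.Adj u v then [ok G src tgt mess u r a h] else []
  output u a h := ok G src tgt mess u (E + Fintype.card V) a h

end

variable {src tgt : Fin E → V} {mess : Fin E → (Fin n → Bool) → List Bool}

open Classical in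
lemma proto_send (r : ℕ) (u v : V) (a : Fin n → Bool) (h : ℕ → V → List Bool) :
    (proto G src tgt mess).send r u v a h =
    if hr : r < E then (if u = src ⟨r, hr⟩ ∧ v = tgt ⟨r, hr⟩ then mess ⟨r, hr⟩ a else [])
    else if G.Adj u v then [ok G src tgt mess u r a h] else [] := rfl

open Classical in
lemma ok_iff (u : V) (r : ℕ) (a : Fin n → Bool) (h : ℕ → V → List Bool) :
    ok G src tgt mess u r a h = true ↔ ((∀ e : Fin E, tgt e = u → h e (src e) = mess e a) ∧
    ∀ s, E ≤ s → s < r → ∀ w, G.Adj u w → h s w = [true]) := by
  unfold ok
  exact decide_eq_true_iff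

lemma msg_lt (x : V → Fin n → Bool) (e : Fin E) (u v : V) :
    (proto G src tgt mess).msg x e u v = if u = src e ∧ v = tgt e then mess e (x u) else [] := by
  rw [msg_eq _ _ (by simp only [proto]; omega), proto_send, dif_pos e.2]

open Classical in
lemma msg_flood (x : V → Fin n → Bool) {r : ℕ} (h1 : E ≤ r) (h2 : r < E + Fintype.card V)
    (u v : V) (huv : G.Adj u v) :
    (proto G src tgt mess).msg x r u v = [ok G src tgt mess u r (x u)
      (fun s w => if s < r then (proto G src tgt mess).msg x s w u else [])] := by
  rw [msg_eq _ _ (by simp only [proto]; omega), proto_send, dif_neg (by omega), if_pos huv]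

lemma msg_flood' (x : V → Fin n → Bool) {r : ℕ} (h1 : E ≤ r) (h2 : r < E + Fintype.card V)
    (u v : V) (huv : ¬ G.Adj u v) :
    (proto G src tgt mess).msg x r u v = [] := by
  rw [msg_eq _ _ (by simp only [proto]; omega), proto_send, dif_neg (by omega), if_neg huv]

lemma proto_legal (hadj : ∀ e, G.Adj (src e) (tgt e)) {l : ℕ}
    (hlen : ∀ e a, (mess e a).length = l) : (proto G src tgt mess).Legal G where
  adj := by
    intro x s u v huv
    by_cases h1 : s < E
    · have h2 := msg_lt (G := G) (src := src) (tgt := tgt) (mess := mess) x ⟨s, h1⟩ u v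
      rw [h2, if_neg]
      rintro ⟨rfl, rfl⟩
      exact huv (hadj _)
    · by_cases h2 : s < E + Fintype.card V
      · exact msg_flood' x (by omega) h2 u v huv
      · exact msg_ge _ _ (by simp only [proto]; omega) u v
  len := by
    intro x y r u v hr _
    by_cases h1 : r < E
    · have h2 := fun x => msg_lt (G := G) (src := src) (tgt := tgt) (mess := mess) x ⟨r, h1⟩ u v
      have h3 := h2 x
      have h4 := h2 y
      simp only at h3 h4
      rw [h3, h4]
      split_ifs
      · rw [hlen, hlen]
      · rfl
    · have hr' : r < E + Fintype.card V := hr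
      by_cases h2 : G.Adj u v
      · rw [msg_flood x (by omega) hr' u v h2, msg_flood y (by omega) hr' u v h2]
        rfl
      · rw [msg_flood' x (by omega) hr' u v h2, msg_flood' y (by omega) hr' u v h2]

lemma ok_true (x : V → Fin n → Bool) (hx : ∀ v w, x v = x w) :
    ∀ r, r ≤ E + Fintype.card V → E ≤ r → ∀ u, ok G src tgt mess u r (x u)
      (fun s w => if s < r then (proto G src tgt mess).msg x s w u else []) = true := by
  intro r
  induction r using Nat.strong_induction_on with
  | _ r ih =>
    intro hr hE u
    rw [ok_iff]
    constructor
    · intro e he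
      have h1 : (e : ℕ) < r := by have := e.2; omega
      rw [if_pos h1, msg_lt, if_pos ⟨rfl, he.symm⟩, hx (src e) u]
    · intro s hs1 hs2 w huw
      rw [if_pos hs2, msg_flood x hs1 (by omega) w u huw.symm, ih s hs2 (by omega) hs1 w]

lemma ok_false (x : V → Fin n → Bool) {e : Fin E}
    (he : mess e (x (src e)) ≠ mess e (x (tgt e))) {u w0 : V} (p : G.Walk u w0)
    (hw0 : w0 = tgt e) :
    ∀ r, r ≤ E + Fintype.card V → E + p.length ≤ r → ok G src tgt mess u r (x u)
      (fun s w => if s < r then (proto G src tgt mess).msg x s w u else []) = false := by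
  induction p with
  | nil =>
    intro r hr hE
    subst hw0
    rw [← Bool.not_eq_true, ok_iff]
    rintro ⟨h1, -⟩
    have h2 := h1 e rfl
    simp only [SimpleGraph.Walk.length_nil, add_zero] at hE
    have h3 : (e : ℕ) < r := by have := e.2; omega
    rw [if_pos h3, msg_lt, if_pos ⟨rfl, rfl⟩] at h2
    exact he h2
  | @cons u w _ huw p ih =>
    intro r hr hE
    simp only [SimpleGraph.Walk.length_cons] at hE
    rw [← Bool.not_eq_true, ok_iff]
    rintro ⟨-, h1⟩
    have h2 := h1 (E + p.length) (by omega) (by omega) w huw
    rw [if_pos (by omega), msg_flood x (by omega) (by omega) w u huw.symm,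
      ih hw0 (E + p.length) (by omega) le_rfl] at h2
    simp at h2

lemma proto_correct (hG : G.Connected)
    (hsep : ∀ x : V → Fin n → Bool, (∀ e, mess e (x (src e)) = mess e (x (tgt e))) →
      ∀ v w, x v = x w) : (proto G src tgt mess).Correct := by
  intro x u
  have hout : (proto G src tgt mess).output u (x u)
      (fun s w => (proto G src tgt mess).msg x s w u) = ok G src tgt mess u (E + Fintype.card V)
      (x u) (fun s w => if s < E + Fintype.card V then (proto G src tgt mess).msg x s w u
        else []) := by
    have h1 : (fun s w => (proto G src tgt mess).msg x s w u) =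
        (fun s w => if s < E + Fintype.card V then (proto G src tgt mess).msg x s w u
        else []) := by
      funext s w
      split_ifs with h
      · rfl
      · exact msg_ge _ _ (by simp only [proto]; omega) w u
    rw [h1]
    rfl
  rw [hout]
  constructor
  · intro h
    by_contra hcon
    have h2 : ∃ e, mess e (x (src e)) ≠ mess e (x (tgt e)) := by
      by_contra h3
      push Not at h3
      exact hcon (hsep x h3)
    obtain ⟨e, he⟩ := h2
    obtain ⟨p, hp⟩ := (hG.preconnected u (tgt e)).exists_isPath
    have h4 := hp.length_lt
    rw [ok_false x he p rfl _ le_rfl (by omega)] at h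
    exact absurd h (by simp)
  · intro h
    exact ok_true x h _ le_rfl (by omega) u

lemma proto_cost {l : ℕ} (hlen : ∀ e a, (mess e a).length = l) (x : V → Fin n → Bool) :
    (proto G src tgt mess).cost x ≤ E * l + Fintype.card V ^ 3 := by
  unfold Protocol.cost
  have hR : (proto G src tgt mess).rounds = E + Fintype.card V := rfl
  rw [hR, sum_range_add]
  apply add_le_add
  · calc ∑ s ∈ range E, ∑ u, ∑ v, ((proto G src tgt mess).msg x s u v).length ≤
        ∑ s ∈ range E, l := by
          apply sum_le_sum
          intro s hs
          rw [mem_range] at hs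
          have h1 : ∀ u v, ((proto G src tgt mess).msg x s u v).length =
              if u = src ⟨s, hs⟩ then (if v = tgt ⟨s, hs⟩ then l else 0) else 0 := by
            intro u v
            have h2 := msg_lt (G := G) (src := src) (tgt := tgt) (mess := mess) x ⟨s, hs⟩ u v
            simp only at h2
            rw [h2]
            by_cases h3 : u = src ⟨s, hs⟩ <;> by_cases h4 : v = tgt ⟨s, hs⟩ <;>
              simp [h3, h4, hlen]
          rw [sum_congr rfl (fun u _ => sum_congr rfl (fun v _ => h1 u v))]
          simp
      _ = E * l := by simp
  · calc ∑ s ∈ range (Fintype.card V), ∑ u, ∑ v,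
        ((proto G src tgt mess).msg x (E + s) u v).length ≤
        ∑ s ∈ range (Fintype.card V), ∑ _u : V, ∑ _v : V, 1 := by
          apply sum_le_sum
          intro s hs
          rw [mem_range] at hs
          apply sum_le_sum
          intro u _
          apply sum_le_sum
          intro v _
          by_cases h2 : G.Adj u v
          · rw [msg_flood x (by omega) (by omega) u v h2]
            simp
          · rw [msg_flood' x (by omega) (by omega) u v h2]
            simp
      _ = Fintype.card V ^ 3 := by
          simp
          ring

end Pool.Agent.X243.EqTest
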